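import Pool.Agent.Work.MP_cb380d_h91.Keys

open Classical

namespace Pool.IC

/-- The strings giving the keys for the instances of a region. -/
def kpart (n n' : ℕ) (key : Str → Str) : Set Str :=
  {s | ∃ v y, Reg sz n n' y ∧ v <:+ key y ∧ s = pt v y}

/-- Default answers about keys of instances of size at least `n`. -/
def dflt (n : ℕ) : Set Str := {s | ∃ j y, n ≤ sz y ∧ s = pt (List.replicate j false) y}

/-- Oracle where all instances of sizes `n, …, b` have special keys given by `u`. -/
def orc1 (O : Set Str) (n b L : ℕ) (u : Str → Str) : Set Str :=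
  O ∪ (kpart n (b + 1) (fun y => sk (u y) L) ∪ dflt (b + 1))

theorem mem_orc1_update {O : Set Str} {n b L : ℕ} {u : Str → Str} {y : Str} {u0 : Str} {s : Str}
    (hs : ∀ v, s ≠ pt v y) :
    s ∈ orc1 O n b L u ↔ s ∈ orc1 O n b L (Function.update u y u0) := by
  unfold orc1 kpart
  simp only [Set.mem_union]
  refine or_congr Iff.rfl (or_congr ?_ Iff.rfl)
  constructor
  · rintro ⟨v, y', h1, h2, h3⟩
    refine ⟨v, y', h1, ?_, h3⟩
    have : y' ≠ y := by
      rintro rfl
      exact hs v h3
    rw [Function.update_of_ne this]
    exact h2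
  · rintro ⟨v, y', h1, h2, h3⟩
    refine ⟨v, y', h1, ?_, h3⟩
    have : y' ≠ y := by
      rintro rfl
      exact hs v h3
    rw [Function.update_of_ne this] at h2
    exact h2

/-- Special keys can be chosen such that the instances asked for get different keys. -/
theorem adaptive (qy : Set Str → ℕ → Option Str)
    (hloc : ∀ O O' j, (∀ i < j, ∀ s, qy O i = some s → (s ∈ O ↔ s ∈ O')) → qy O j = qy O' j)
    (O : Set Str) (n b L : ℕ) (hL : 1 ≤ L) (t : ℕ) (ht : t ≤ 2 ^ (L - 1)) :
    ∃ u : Str → Str, (∀ y, (u y).length + 1 = L) ∧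
      ∀ y y', (∃ i < t, ∃ v, qy (orc1 O n b L u) i = some (pt v y)) →
        (∃ i < t, ∃ v, qy (orc1 O n b L u) i = some (pt v y')) → u y = u y' → y = y' := by
  obtain ⟨dp, hdp⟩ : ∃ dp : Str → Str, ∀ v y, dp (pt v y) = y := by
    refine ⟨fun s => if h : ∃ y, ∃ v, s = pt v y then h.choose else [], fun v y => ?_⟩
    have h : ∃ y', ∃ v', pt v y = pt v' y' := ⟨y, v, rfl⟩
    simp only [dif_pos h]
    obtain ⟨v', h1⟩ := h.choose_spec
    exact (pt_inj h1).2.symm
  induction t with
  | zero =>
    refine ⟨fun _ => List.replicate (L - 1) false, fun _ => by simp; omega, ?_⟩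
    rintro y y' ⟨i, hi, -⟩
    omega
  | succ t ih =>
    obtain ⟨u, hu1, hu2⟩ := ih (by omega)
    by_cases hnew : ∃ v y, qy (orc1 O n b L u) t = some (pt v y) ∧
        ¬ ∃ i < t, ∃ v, qy (orc1 O n b L u) i = some (pt v y)
    · obtain ⟨v, y, hy, hold⟩ := hnew
      -- a fresh value
      obtain ⟨u0, hu0, hu0'⟩ : ∃ u0 ∈ strs (L - 1), u0 ∉ (Finset.range t).image
          (fun i => u (dp ((qy (orc1 O n b L u) i).getD []))) := by
        by_contra hcon
        push Not at hcon
        have h1 := Finset.card_le_card (show strs (L - 1) ⊆ _ from hcon)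
        have h2 : ((Finset.range t).image
          (fun i => u (dp ((qy (orc1 O n b L u) i).getD [])))).card ≤ t := by
          simpa using Finset.card_image_le (s := Finset.range t)
            (f := fun i => u (dp ((qy (orc1 O n b L u) i).getD [])))
        rw [card_strs] at h1
        omega
      rw [mem_strs] at hu0
      have hsame : ∀ i ≤ t, qy (orc1 O n b L u) i = qy (orc1 O n b L (Function.update u y u0)) i := by
        intro i hi
        refine hloc _ _ _ fun i' hi' s hs => mem_orc1_update fun v' hv' => ?_
        exact hold ⟨i', by omega, v', by rw [hs, hv']⟩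
      refine ⟨Function.update u y u0, ?_, ?_⟩
      · intro y'
        by_cases h : y' = y
        · rw [h, Function.update_self]; omega
        · rw [Function.update_of_ne h]; exact hu1 y'
      · have hcase : ∀ y', (∃ i < t + 1, ∃ v, qy (orc1 O n b L (Function.update u y u0)) i =
            some (pt v y')) → y' = y ∨ (y' ≠ y ∧ ∃ i < t, ∃ v, qy (orc1 O n b L u) i =
            some (pt v y')) := by
          rintro y' ⟨i, hi, v', h⟩
          rw [← hsame i (by omega)] at h
          by_cases hyy : y' = y
          · exact Or.inl hyy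
          · right
            refine ⟨hyy, i, ?_, v', h⟩
            rcases Nat.lt_succ_iff_lt_or_eq.1 hi with h1 | h1
            · exact h1
            · exfalso
              rw [h1, hy] at h
              exact hyy (pt_inj (Option.some.inj h)).2.symm
        have hfresh : ∀ y', (∃ i < t, ∃ v, qy (orc1 O n b L u) i = some (pt v y')) →
            u y' ≠ u0 := by
          rintro y' ⟨i, hi, v', h⟩ h0
          apply hu0'
          rw [Finset.mem_image]
          refine ⟨i, Finset.mem_range.2 hi, ?_⟩
          rw [h, Option.getD_some, hdp, h0]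
        intro y1 y2 h1 h2 h12
        rcases hcase y1 h1 with h1 | ⟨h1, h1'⟩
        · rcases hcase y2 h2 with h2 | ⟨h2, h2'⟩
          · rw [h1, h2]
          · rw [h1, Function.update_self, Function.update_of_ne h2] at h12
            exact absurd h12.symm (hfresh y2 h2')
        · rcases hcase y2 h2 with h2 | ⟨h2, h2'⟩
          · rw [h2, Function.update_self, Function.update_of_ne h1] at h12
            exact absurd h12 (hfresh y1 h1')
          · rw [Function.update_of_ne h1, Function.update_of_ne h2] at h12
            exact hu2 y1 y2 h1' h2' h12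
    · push Not at hnew
      refine ⟨u, hu1, ?_⟩
      have hcase : ∀ y', (∃ i < t + 1, ∃ v, qy (orc1 O n b L u) i = some (pt v y')) →
          ∃ i < t, ∃ v, qy (orc1 O n b L u) i = some (pt v y') := by
        rintro y' ⟨i, hi, v', h⟩
        rcases Nat.lt_succ_iff_lt_or_eq.1 hi with h1 | h1
        · exact ⟨i, h1, v', h⟩
        · rw [h1] at h
          obtain ⟨i', hi', v'', h'⟩ := hnew v' y' h
          exact ⟨i', hi', v'', h'⟩
      intro y1 y2 h1 h2 h12
      exact hu2 y1 y2 (hcase y1 h1) (hcase y2 h2) h12

end Pool.IC
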