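import Pool.Agent.Work.OracleCmd_h91.Strings

/-!
# The witnesses of one region

`m y` is a natural number bounding the computation of the instance `y`; `Acc O y` says that the
instance `y` is accepted relative to `O`; `key y` is the key of `y`.  For the instances `y` with
`n ≤ m y < n'` witnesses for the keys of the accepted instances are added to the oracle `X`,
although instances with short keys may ask for them.
-/

open Classical

namespace Pool.IC

section

variable {m : Str → ℕ} {Acc : Set Str → Str → Prop}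

/-- Acceptance has small certificates. -/
def Certified (m : Str → ℕ) (Acc : Set Str → Str → Prop) : Prop :=
  ∀ y O, Acc O y → ∃ Q : Finset Str, Q.card ≤ m y ∧ (∀ s ∈ Q, s.length < m y) ∧
    ∀ O', (∀ s ∈ Q, (s ∈ O ↔ s ∈ O')) → Acc O' y

theorem Certified.congr (h : Certified m Acc) {y : Str} {O O' : Set Str}
    (hO : ∀ s : Str, s.length < m y → (s ∈ O ↔ s ∈ O')) : Acc O y ↔ Acc O' y := by
  constructor
  · intro h1
    obtain ⟨Q, -, h2, h3⟩ := h y O h1
    exact h3 O' fun s hs => hO s (h2 s hs)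
  · intro h1
    obtain ⟨Q, -, h2, h3⟩ := h y O' h1
    exact h3 O fun s hs => (hO s (h2 s hs)).symm

variable (X : Set Str) (n n' : ℕ) (key : Str → Str)

/-- `y` belongs to the region. -/
def Reg (m : Str → ℕ) (n n' : ℕ) (y : Str) : Prop := n ≤ m y ∧ m y < n'

/-- Existence of a fresh witness. -/
theorem exists_fresh (Z : Finset Str) (c : Str) (hZ : Z.card < 2 ^ (c.length ^ 2)) :
    ∃ w : Str, w.length = c.length ^ 2 ∧ wt true w c ∉ Z := by
  by_contra hcon
  push Not at hcon
  have h1 : (strs (c.length ^ 2)).image (fun w => wt true w c) ⊆ Z := by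
    intro s hs
    obtain ⟨w, hw, rfl⟩ := Finset.mem_image.1 hs
    exact hcon w (mem_strs.1 hw)
  have h2 := Finset.card_le_card h1
  rw [Finset.card_image_of_injective _ (fun w w' h => (wt_inj h).2.1), card_strs] at h2
  omega

/-- The strings added up to level `j`. -/
def ext (m : Str → ℕ) (Acc : Set Str → Str → Prop) (X : Set Str) (n n' : ℕ) (key : Str → Str)
    (R : Finset Str) (Zp : Set Str) (fresh : Str → Str) : ℕ → Set Str
  | 0 => Zp
  | j + 1 => ext m Acc X n n' key R Zp fresh j ∪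
      {s | ∃ y, y ∉ R ∧ m y = j ∧ n ≤ j ∧ j < n' ∧ (∀ w, wt true w (key y) ∉ Zp) ∧
        Acc (X ∪ ext m Acc X n n' key R Zp fresh j) y ∧ s = wt true (fresh y) (key y)}

theorem ext_mono {R : Finset Str} {Zp : Set Str} {fresh : Str → Str} {i j : ℕ} (h : i ≤ j) :
    ext m Acc X n n' key R Zp fresh i ⊆ ext m Acc X n n' key R Zp fresh j := by
  induction h with
  | refl => exact subset_rfl
  | step _ ih => exact ih.trans (fun s hs => Or.inl hs)

/-- **Extension lemma.** -/
theorem extension (hc : Certified m Acc) (R : Finset Str)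
    (hreg : ∀ y, Reg m n n' y → y ∉ R → (key y).length = m y)
    (hinj : ∀ y y', Reg m n n' y → Reg m n n' y' → key y = key y' → y = y')
    (hkey : ∀ y, Reg m n n' y → n ≤ (key y).length)
    (Zp : Set Str) (Zm : Finset Str) (hZ : Zm.card < 2 ^ (n ^ 2))
    (hdisj : ∀ s ∈ Zp, s ∉ Zm)
    (hform : ∀ s ∈ Zp, ∃ y w, Reg m n n' y ∧ s = wt true w (key y) ∧
      w.length = (key y).length ^ 2)
    (hclosed : ∀ y w, Reg m n n' y → wt true w (key y) ∈ Zp →
      ∀ W : Set Str, Zp ⊆ W → (∀ s ∈ W, s ∉ Zm) → Acc (X ∪ W) y) :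
    ∃ W : Set Str, Zp ⊆ W ∧ (∀ s ∈ W, s ∉ Zm) ∧
      (∀ s ∈ W, ∃ y w, Reg m n n' y ∧ s = wt true w (key y) ∧ w.length = (key y).length ^ 2) ∧
      (∀ y, Reg m n n' y → y ∉ R → ((∃ w, wt true w (key y) ∈ W) ↔ Acc (X ∪ W) y)) ∧
      (∀ y, Reg m n n' y → y ∈ R → ∀ w, wt true w (key y) ∈ W → wt true w (key y) ∈ Zp) := by
  have hfr : ∀ y, ∃ w : Str, Reg m n n' y → w.length = (key y).length ^ 2 ∧
      wt true w (key y) ∉ Zm := by
    intro y
    by_cases hy : Reg m n n' y
    · obtain ⟨w, hw⟩ := exists_fresh Zm (key y) (hZ.trans_le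
        (Nat.pow_le_pow_right (by norm_num) (Nat.pow_le_pow_left (hkey y hy) 2)))
      exact ⟨w, fun _ => hw⟩
    · exact ⟨[], fun h => absurd h hy⟩
  choose fresh hfresh using hfr
  set E := ext m Acc X n n' key R Zp fresh with hE
  have hmono : ∀ {i j : ℕ}, i ≤ j → E i ⊆ E j := fun h => ext_mono X n n' key h
  have hprop : ∀ j, ∀ s ∈ E j, s ∈ Zp ∨ ∃ y, y ∉ R ∧ Reg m n n' y ∧ m y < j ∧
      (∀ w, wt true w (key y) ∉ Zp) ∧ Acc (X ∪ E (m y)) y ∧ s = wt true (fresh y) (key y) := by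
    intro j
    induction j with
    | zero => intro s hs; exact Or.inl hs
    | succ j ih =>
      intro s hs
      rcases hs with hs | ⟨y, h1, h2, h3, h4, h5, h6, h7⟩
      · rcases ih s hs with h | ⟨y, h1, h2, h3, h4⟩
        · exact Or.inl h
        · exact Or.inr ⟨y, h1, h2, h3.trans j.lt_succ_self, h4⟩
      · refine Or.inr ⟨y, h1, ⟨by omega, by omega⟩, by omega, h5, ?_, h7⟩
        rw [h2]
        exact h6
  set W : Set Str := ⋃ j, E j with hW
  have hZW : Zp ⊆ W := fun s hs => Set.mem_iUnion.2 ⟨0, hs⟩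
  have hWprop : ∀ s ∈ W, s ∈ Zp ∨ ∃ y, y ∉ R ∧ Reg m n n' y ∧
      (∀ w, wt true w (key y) ∉ Zp) ∧ Acc (X ∪ E (m y)) y ∧ s = wt true (fresh y) (key y) := by
    intro s hs
    obtain ⟨j, hj⟩ := Set.mem_iUnion.1 hs
    rcases hprop j s hj with h | ⟨y, h1, h2, -, h4⟩
    · exact Or.inl h
    · exact Or.inr ⟨y, h1, h2, h4⟩
  -- the oracle does not change for instance `y` after level `m y`
  have hagree : ∀ y, Acc (X ∪ E (m y)) y ↔ Acc (X ∪ W) y := by
    intro y
    refine hc.congr fun s hs => ?_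
    constructor
    · rintro (h | h)
      · exact Or.inl h
      · exact Or.inr (Set.mem_iUnion.2 ⟨_, h⟩)
    · rintro (h | h)
      · exact Or.inl h
      · right
        obtain ⟨j, hj⟩ := Set.mem_iUnion.1 h
        rcases hprop j s hj with h | ⟨y', h1, h2, h3, h4, h5, h6⟩
        · exact hmono (Nat.zero_le _) h
        · by_cases hle : m y' < m y
          · have : s ∈ E (m y' + 1) := Or.inr ⟨y', h1, rfl, h2.1, h2.2, h4, h5, h6⟩
            exact hmono hle this
          · exfalso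
            rw [h6, length_wt, hreg y' h2 h1] at hs
            omega
  have hWm : ∀ s ∈ W, s ∉ Zm := by
    intro s hs
    rcases hWprop s hs with h | ⟨y, h1, h2, h3, h4, h5⟩
    · exact hdisj s h
    · rw [h5]
      exact (hfresh y h2).2
  refine ⟨W, hZW, hWm, ?_, ?_, ?_⟩
  · intro s hs
    rcases hWprop s hs with h | ⟨y, h1, h2, h3, h4, h5⟩
    · exact hform s h
    · exact ⟨y, fresh y, h2, h5, (hfresh y h2).1⟩
  · intro y hy hyR
    constructor
    · rintro ⟨w, hw⟩
      rcases hWprop _ hw with h | ⟨y', h1, h2, h3, h4, h5⟩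
      · exact hclosed y w hy h W hZW hWm
      · have := hinj y y' hy h2 (wt_inj h5).2.2
        subst this
        exact (hagree y).1 h4
    · intro hacc
      by_cases hz : ∃ w, wt true w (key y) ∈ Zp
      · obtain ⟨w, hw⟩ := hz
        exact ⟨w, hZW hw⟩
      · push Not at hz
        refine ⟨fresh y, Set.mem_iUnion.2 ⟨m y + 1, Or.inr ⟨y, hyR, rfl, hy.1, hy.2, hz, ?_,
          rfl⟩⟩⟩
        exact (hagree y).2 hacc
  · intro y hy hyR w hw
    rcases hWprop _ hw with h | ⟨y', h1, h2, h3, h4, h5⟩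
    · exact h
    · have := hinj y y' hy h2 (wt_inj h5).2.2
      subst this
      exact absurd hyR h1

/-- The situation with the special instances `S ⊆ R` accepted. -/
structure Valid (m : Str → ℕ) (Acc : Set Str → Str → Prop) (X : Set Str) (n n' : ℕ)
    (key : Str → Str) (R F S : Finset Str) (W : Set Str) : Prop where
  form : ∀ s ∈ W, ∃ y w, Reg m n n' y ∧ s = wt true w (key y) ∧ w.length = (key y).length ^ 2
  avoid : ∀ s ∈ W, s ∉ F
  reg : ∀ y, Reg m n n' y → y ∉ R → ((∃ w, wt true w (key y) ∈ W) ↔ Acc (X ∪ W) y)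
  spec : ∀ y ∈ R, ((∃ w, wt true w (key y) ∈ W) ↔ y ∈ S)
  acc : ∀ y ∈ S, Acc (X ∪ W) y

/-- Closure of a set of questions. -/
def cl (Q : Str → Finset Str) (D : Str → Finset Str) : ℕ → Str → Finset Str
  | 0, y => Q y
  | j + 1, y => Q y ∪ (D y).biUnion (cl Q D j)

theorem sub_cl (Q D : Str → Finset Str) (j : ℕ) (y : Str) : Q y ⊆ cl Q D j y := by
  cases j with
  | zero => exact subset_rfl
  | succ j => exact Finset.subset_union_left

theorem card_cl {Q D : Str → Finset Str} (hQ : ∀ y, (Q y).card ≤ m y)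
    (hD : ∀ y, (D y).card ≤ m y) (hD2 : ∀ y, ∀ y' ∈ D y, 2 * m y' ^ 2 < m y) (j : ℕ) (y : Str) :
    (cl Q D j y).card ≤ m y ^ 3 := by
  have h0 : ∀ y, m y ≤ m y ^ 3 := by
    intro y
    rcases Nat.eq_zero_or_pos (m y) with h | h
    · rw [h]; simp
    · calc m y = m y ^ 1 := (pow_one _).symm
        _ ≤ m y ^ 3 := Nat.pow_le_pow_right h (by norm_num)
  induction j generalizing y with
  | zero => exact (hQ y).trans (h0 y)
  | succ j ih =>
    have h1 : (cl Q D (j + 1) y).card ≤ (Q y).card + ((D y).biUnion (cl Q D j)).card :=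
      Finset.card_union_le _ _
    by_cases hne : (D y).Nonempty
    · obtain ⟨y1, hy1⟩ := hne
      have hm1 : 1 ≤ m y := by
        have := hD2 y y1 hy1
        omega
      have h2 : ((D y).biUnion (cl Q D j)).card ≤ (D y).card * ((m y ^ 2) / 4) := by
        refine Finset.card_biUnion_le_card_mul _ _ _ fun y' hy' => (ih y').trans ?_
        have h3 := hD2 y y' hy'
        rw [Nat.le_div_iff_mul_le (by norm_num)]
        rcases Nat.eq_zero_or_pos (m y') with h | h
        · rw [h]; simp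
        · have h4 : (2 * m y' ^ 2) * (2 * m y' ^ 2) ≤ m y * m y := Nat.mul_le_mul h3.le h3.le
          calc m y' ^ 3 * 4 ≤ m y' ^ 4 * 4 :=
                Nat.mul_le_mul_right _ (Nat.pow_le_pow_right h (by norm_num))
            _ = (2 * m y' ^ 2) * (2 * m y' ^ 2) := by ring
            _ ≤ m y * m y := h4
            _ = m y ^ 2 := by ring
      have h5 : (D y).card * ((m y ^ 2) / 4) ≤ m y * (m y ^ 2 / 4) :=
        Nat.mul_le_mul_right _ (hD y)
      have h6 : 4 * (m y ^ 2 / 4) ≤ m y ^ 2 := Nat.mul_div_le _ _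
      have h7 := hQ y
      calc (cl Q D (j + 1) y).card ≤ m y + m y * (m y ^ 2 / 4) := by omega
        _ ≤ m y ^ 3 := by
          have h9 : m y * (4 * (m y ^ 2 / 4)) ≤ m y * m y ^ 2 := Nat.mul_le_mul_left _ h6
          have h10 : m y ^ 3 = m y * m y ^ 2 := by ring
          rcases Nat.lt_or_ge (m y) 2 with h | h
          · have h11 : m y = 1 := by omega
            rw [h11]
            norm_num
          · have h12 : 4 * m y ≤ m y * m y ^ 2 := by
              rw [Nat.mul_comm 4]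
              refine Nat.mul_le_mul_left _ ?_
              calc 4 = 2 ^ 2 := rfl
                _ ≤ m y ^ 2 := Nat.pow_le_pow_left h 2
            rw [h10]
            nlinarith
    · rw [Finset.not_nonempty_iff_eq_empty] at hne
      rw [hne] at h1
      simp only [Finset.biUnion_empty, Finset.card_empty, add_zero] at h1
      exact h1.trans ((hQ y).trans (h0 y))

theorem closed_cl {Q D : Str → Finset Str} (hQ : ∀ y, (Q y).card ≤ m y)
    (hD2 : ∀ y, ∀ y' ∈ D y, m y' < m y) (P : Str → Str → Prop)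
    (hP : ∀ y, ∀ s ∈ Q y, ∀ y', P s y' → y' ∈ D y) (j : ℕ) :
    ∀ y, m y ≤ j → ∀ s ∈ cl Q D j y, ∀ y', P s y' → Q y' ⊆ cl Q D j y := by
  induction j with
  | zero =>
    intro y hy s hs
    have h1 : (Q y).card = 0 := by
      have := hQ y
      omega
    rw [Finset.card_eq_zero] at h1
    rw [cl, h1] at hs
    simp at hs
  | succ j ih =>
    intro y hy s hs y' hP'
    rw [cl, Finset.mem_union] at hs
    rcases hs with hs | hs
    · have h1 := hP y s hs y' hP'
      refine (sub_cl Q D j y').trans ?_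
      rw [cl]
      exact (Finset.subset_biUnion_of_mem (cl Q D j) h1).trans Finset.subset_union_right
    · obtain ⟨y1, hy1, hs1⟩ := Finset.mem_biUnion.1 hs
      have h2 := hD2 y y1 hy1
      have h1 := ih y1 (by omega) s hs1 y' hP'
      refine h1.trans ?_
      rw [cl]
      exact (Finset.subset_biUnion_of_mem (cl Q D j) hy1).trans Finset.subset_union_right

/-- One more special instance can be accepted. -/
theorem valid_step (hc : Certified m Acc) (R F : Finset Str) (b : ℕ)
    (hreg : ∀ y, Reg m n n' y → y ∉ R → (key y).length = m y)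
    (hinj : ∀ y y', Reg m n n' y → Reg m n n' y' → key y = key y' → y = y')
    (hkey : ∀ y, Reg m n n' y → n ≤ (key y).length)
    (hR : ∀ y ∈ R, Reg m n n' y ∧ m y ≤ b)
    (hbig : F.card + R.card * b ^ 3 < 2 ^ (n ^ 2))
    {S : Finset Str} {W : Set Str} (hS : S ⊆ R) (hv : Valid m Acc X n n' key R F S W)
    {y0 : Str} (hy0 : y0 ∈ R) (hy0S : y0 ∉ S) (hacc : Acc (X ∪ W) y0) :
    ∃ W', Valid m Acc X n n' key R F (insert y0 S) W' := by
  -- certificates
  have hcert : ∀ y, ∃ Q : Finset Str, Q.card ≤ m y ∧ (∀ s ∈ Q, s.length < m y) ∧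
      (Acc (X ∪ W) y → ∀ O', (∀ s ∈ Q, (s ∈ X ∪ W ↔ s ∈ O')) → Acc O' y) := by
    intro y
    by_cases hy : Acc (X ∪ W) y
    · obtain ⟨Q, h1, h2, h3⟩ := hc y _ hy
      exact ⟨Q, h1, h2, fun _ => h3⟩
    · exact ⟨∅, by simp, by simp, fun h => absurd h hy⟩
  choose Q hQ1 hQ2 hQ3 using hcert
  -- regular instances whose witness is asked for
  set P : Str → Str → Prop := fun s y' => s ∈ W ∧ Reg m n n' y' ∧ y' ∉ R ∧
    ∃ w, s = wt true w (key y') with hPdef
  have hdec : ∃ dec : Str → Str, ∀ s y', P s y' → dec s = y' := by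
    refine ⟨fun s => if h : ∃ y', P s y' then h.choose else [], fun s y' hP => ?_⟩
    have h : ∃ y', P s y' := ⟨y', hP⟩
    simp only [dif_pos h]
    obtain ⟨-, h1, -, w, h2⟩ := h.choose_spec
    obtain ⟨-, h3, -, w', h4⟩ := hP
    rw [h2] at h4
    exact hinj _ _ h1 h3 (wt_inj h4).2.2
  obtain ⟨dec, hdec⟩ := hdec
  set D : Str → Finset Str := fun y => ((Q y).filter fun s => ∃ y', P s y').image dec with hD
  have hDc : ∀ y, (D y).card ≤ m y := fun y =>
    Finset.card_image_le.trans ((Finset.card_filter_le _ _).trans (hQ1 y))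
  have hDP : ∀ y, ∀ y' ∈ D y, ∃ s ∈ Q y, P s y' := by
    intro y y' hy'
    obtain ⟨s, hs, h1⟩ := Finset.mem_image.1 hy'
    obtain ⟨hs1, y'', hs2⟩ := Finset.mem_filter.1 hs
    have := hdec s y'' hs2
    rw [h1] at this
    rw [this]
    exact ⟨s, hs1, hs2⟩
  have hD2 : ∀ y, ∀ y' ∈ D y, 2 * m y' ^ 2 < m y := by
    intro y y' hy'
    obtain ⟨s, hs, hsW, h1, h2, w, h3⟩ := hDP y y' hy'
    have h4 := hQ2 y s hs
    obtain ⟨y'', w', h5, h6, h7⟩ := hv.form s hsW
    rw [h3] at h6
    obtain ⟨-, h8, h9⟩ := wt_inj h6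
    rw [h3, length_wt, h8, h7, ← h9, hreg y' h1 h2] at h4
    omega
  have hPD : ∀ y, ∀ s ∈ Q y, ∀ y', P s y' → y' ∈ D y := by
    intro y s hs y' hP'
    exact Finset.mem_image.2 ⟨s, Finset.mem_filter.2 ⟨hs, y', hP'⟩, hdec s y' hP'⟩
  have hclosed := fun y => closed_cl hQ1 (fun y y' hy' => by
    have h1 := hD2 y y' hy'
    rcases Nat.eq_zero_or_pos (m y') with h | h
    · omega
    · have : m y' ≤ m y' ^ 2 := Nat.le_self_pow (by norm_num) _
      omega) P hPD (m y) y le_rfl
  set Z : Finset Str := (insert y0 S).biUnion fun y => cl Q D (m y) y with hZdef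
  have hSR : insert y0 S ⊆ R := by
    intro y hy
    rcases Finset.mem_insert.1 hy with rfl | hy
    · exact hy0
    · exact hS hy
  have hZc : Z.card ≤ R.card * b ^ 3 := by
    refine (Finset.card_biUnion_le_card_mul _ _ (b ^ 3) fun y hy => ?_).trans
      (Nat.mul_le_mul_right _ (Finset.card_le_card hSR))
    exact (card_cl hQ1 hDc hD2 (m y) y).trans (Nat.pow_le_pow_left (hR y (hSR hy)).2 3)
  have hQZ : ∀ y ∈ insert y0 S, Q y ⊆ Z := by
    intro y hy
    exact (sub_cl Q D (m y) y).trans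
      (Finset.subset_biUnion_of_mem (fun y => cl Q D (m y) y) hy)
  have hPZ : ∀ s ∈ Z, ∀ y', P s y' → Q y' ⊆ Z := by
    intro s hs y' hP'
    obtain ⟨y1, hy1, hs1⟩ := Finset.mem_biUnion.1 hs
    exact (hclosed y1 s hs1 y' hP').trans
      (Finset.subset_biUnion_of_mem (fun y => cl Q D (m y) y) hy1)
  obtain ⟨w0, hw0, hw0Z⟩ := exists_fresh (Z ∪ F) (key y0) (by
    have h1 : (Z ∪ F).card ≤ Z.card + F.card := Finset.card_union_le _ _
    have h2 : 2 ^ (n ^ 2) ≤ 2 ^ ((key y0).length ^ 2) := Nat.pow_le_pow_right (by norm_num)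
      (Nat.pow_le_pow_left (hkey y0 (hR y0 hy0).1) 2)
    omega)
  rw [Finset.mem_union, not_or] at hw0Z
  set Zp : Set Str := {s | s ∈ W ∧ s ∈ Z} ∪ {s | s ∈ W ∧ ∃ y ∈ S, ∃ w, s = wt true w (key y)} ∪
    {wt true w0 (key y0)} with hZp
  set Zm : Finset Str := (Z.filter fun s => s ∉ W) ∪ F with hZm
  have hZmc : Zm.card < 2 ^ (n ^ 2) := by
    have h1 : Zm.card ≤ (Z.filter fun s => s ∉ W).card + F.card := Finset.card_union_le _ _
    have h2 : (Z.filter fun s => s ∉ W).card ≤ Z.card := Finset.card_filter_le _ _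
    omega
  -- agreement on certificates
  have hkeep : ∀ y, Q y ⊆ Z → Acc (X ∪ W) y → ∀ W' : Set Str, Zp ⊆ W' →
      (∀ s ∈ W', s ∉ Zm) → Acc (X ∪ W') y := by
    intro y hQy hy W' hW' hW'm
    refine hQ3 y hy _ fun s hs => ?_
    constructor
    · rintro (h | h)
      · exact Or.inl h
      · exact Or.inr (hW' (Or.inl (Or.inl ⟨h, hQy hs⟩)))
    · rintro (h | h)
      · exact Or.inl h
      · by_contra hcon
        have h1 : s ∉ W := fun h => hcon (Or.inr h)
        exact hW'm s h (Finset.mem_union_left _ (Finset.mem_filter.2 ⟨hQy hs, h1⟩))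
  have hclo : ∀ y w, Reg m n n' y → wt true w (key y) ∈ Zp →
      ∀ W' : Set Str, Zp ⊆ W' → (∀ s ∈ W', s ∉ Zm) → Acc (X ∪ W') y := by
    intro y w hy hyw W' hW' hW'm
    have hnew : ∀ y' ∈ R, Reg m n n' y' → key y = key y' → y ∈ R := by
      intro y' hy' hy'' h
      rw [hinj y y' hy hy'' h]
      exact hy'
    by_cases hyR : y ∈ R
    · -- special
      have hin : y ∈ insert y0 S := by
        rcases hyw with (⟨h1, -⟩ | ⟨h1, -⟩) | h1
        · exact Finset.mem_insert_of_mem ((hv.spec y hyR).1 ⟨w, h1⟩)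
        · exact Finset.mem_insert_of_mem ((hv.spec y hyR).1 ⟨w, h1⟩)
        · rw [hinj y y0 hy (hR y0 hy0).1 (wt_inj h1).2.2]
          exact Finset.mem_insert_self _ _
      refine hkeep y (hQZ y hin) ?_ W' hW' hW'm
      rcases Finset.mem_insert.1 hin with rfl | h
      · exact hacc
      · exact hv.acc y h
    · -- regular
      rcases hyw with (⟨h1, h2⟩ | ⟨-, y1, h1, w1, h2⟩) | h1
      · refine hkeep y (hPZ _ h2 y ⟨h1, hy, hyR, w, rfl⟩) ?_ W' hW' hW'm
        exact (hv.reg y hy hyR).1 ⟨w, h1⟩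
      · exact absurd (hnew y1 (hS h1) (hR y1 (hS h1)).1 (wt_inj h2).2.2) hyR
      · exact absurd (hnew y0 hy0 (hR y0 hy0).1 (wt_inj h1).2.2) hyR
  obtain ⟨W', hW1, hW2, hW3, hW4, hW5⟩ := extension X n n' key hc R hreg hinj hkey Zp Zm hZmc
    (by
      rintro s ((⟨h1, h2⟩ | ⟨h1, h2⟩) | h1) h3
      · rcases Finset.mem_union.1 h3 with h3 | h3
        · exact (Finset.mem_filter.1 h3).2 h1
        · exact hv.avoid s h1 h3
      · rcases Finset.mem_union.1 h3 with h3 | h3
        · exact (Finset.mem_filter.1 h3).2 h1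
        · exact hv.avoid s h1 h3
      · rw [Set.mem_singleton_iff] at h1
        subst h1
        rcases Finset.mem_union.1 h3 with h3 | h3
        · exact hw0Z.1 (Finset.mem_filter.1 h3).1
        · exact hw0Z.2 h3)
    (by
      rintro s ((⟨h1, h2⟩ | ⟨h1, h2⟩) | h1)
      · exact hv.form s h1
      · exact hv.form s h1
      · exact ⟨y0, w0, (hR y0 hy0).1, h1, hw0⟩)
    hclo
  refine ⟨W', ⟨hW3, fun s hs hsF => hW2 s hs (Finset.mem_union_right _ hsF), hW4, ?_, ?_⟩⟩
  · intro y hyR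
    constructor
    · rintro ⟨w, hw⟩
      rcases hW5 y (hR y hyR).1 hyR w hw with (⟨h1, -⟩ | ⟨h1, -⟩) | h1
      · exact Finset.mem_insert_of_mem ((hv.spec y hyR).1 ⟨w, h1⟩)
      · exact Finset.mem_insert_of_mem ((hv.spec y hyR).1 ⟨w, h1⟩)
      · rw [hinj y y0 (hR y hyR).1 (hR y0 hy0).1 (wt_inj h1).2.2]
        exact Finset.mem_insert_self _ _
    · intro hy
      rcases Finset.mem_insert.1 hy with rfl | hy
      · exact ⟨w0, hW1 (Or.inr rfl)⟩
      · obtain ⟨w, hw⟩ := (hv.spec y hyR).2 hy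
        exact ⟨w, hW1 (Or.inl (Or.inr ⟨hw, y, hy, w, rfl⟩))⟩
  · intro y hy
    refine hkeep y (hQZ y hy) ?_ W' hW1 hW2
    rcases Finset.mem_insert.1 hy with rfl | h
    · exact hacc
    · exact hv.acc y h

/-- **Core lemma.** -/
theorem core (hc : Certified m Acc) (R F : Finset Str) (b : ℕ)
    (hreg : ∀ y, Reg m n n' y → y ∉ R → (key y).length = m y)
    (hinj : ∀ y y', Reg m n n' y → Reg m n n' y' → key y = key y' → y = y')
    (hkey : ∀ y, Reg m n n' y → n ≤ (key y).length)
    (hR : ∀ y ∈ R, Reg m n n' y ∧ m y ≤ b)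
    (hbig : F.card + R.card * b ^ 3 < 2 ^ (n ^ 2)) :
    ∃ W : Set Str,
      (∀ s ∈ W, ∃ y w, Reg m n n' y ∧ s = wt true w (key y) ∧ w.length = (key y).length ^ 2) ∧
      (∀ s ∈ W, s ∉ F) ∧
      ∀ y, Reg m n n' y → ((∃ w, wt true w (key y) ∈ W) ↔ Acc (X ∪ W) y) := by
  have hex : ((R.powerset.filter fun S => ∃ W, Valid m Acc X n n' key R F S W)).Nonempty := by
    obtain ⟨W, hW1, hW2, hW3, hW4, hW5⟩ := extension X n n' key hc R hreg hinj hkey ∅ F
      (by omega) (by simp) (by simp) (by simp)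
    refine ⟨∅, Finset.mem_filter.2 ⟨by simp, W, ⟨hW3, hW2, hW4, ?_, by simp⟩⟩⟩
    intro y hyR
    constructor
    · rintro ⟨w, hw⟩
      exact absurd (hW5 y (hR y hyR).1 hyR w hw) (by simp)
    · intro h
      simp at h
  obtain ⟨S, hS, hmax⟩ := Finset.exists_max_image _ Finset.card hex
  obtain ⟨hSR, W, hv⟩ := Finset.mem_filter.1 hS
  rw [Finset.mem_powerset] at hSR
  refine ⟨W, hv.form, hv.avoid, fun y hy => ?_⟩
  by_cases hyR : y ∈ R
  · constructor
    · intro h
      exact hv.acc y ((hv.spec y hyR).1 h)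
    · intro hacc
      rw [hv.spec y hyR]
      by_contra hyS
      obtain ⟨W', hv'⟩ := valid_step X n n' key hc R F b hreg hinj hkey hR hbig hSR hv hyR
        hyS hacc
      have h1 := hmax (insert y S) (Finset.mem_filter.2 ⟨Finset.mem_powerset.2
        (Finset.insert_subset hyR hSR), W', hv'⟩)
      rw [Finset.card_insert_of_notMem hyS] at h1
      omega
  · exact hv.reg y hy hyR

end

end Pool.IC
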