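import Pool.Agent.Work.MP_cb380d_h91.Keys
import Pool.Agent.Work.OracleCmd_h91.Progs

open Classical

namespace Pool.IC

/-- Push `b` on stack 4 `n` times. -/
def pushN (b : Bool) : ℕ → Cmd
  | 0 => Cmd.skip
  | n + 1 => Cmd.seq (Cmd.push 4 b) (pushN b n)

theorem pushN_spec (B : Set Str) (x : Bool) (a b c d f g : Str) (n : ℕ) (e : Str) :
    ExecLe B (pushN x n) (st a b c d e f g) (2 * n + 1)
      (st a b c d (List.replicate n x ++ e) f g) := by
  induction n generalizing e with
  | zero => exact le_skip B _
  | succ n ih =>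
    have h1 := ((push4 B a b c d e f g x).seq (ih (x :: e))).mono (n := 2 * (n + 1) + 1)
      (by omega)
    have h2 : List.replicate (n + 1) x ++ e = List.replicate n x ++ x :: e := by
      rw [List.replicate_succ', List.append_assoc]
      rfl
    rw [h2]
    exact h1

/-- Body of the loop which reads a key. -/
def keyBody : Cmd :=
  Cmd.seq (Cmd.push 4 true) (Cmd.seq (Cmd.push 4 true) (Cmd.seq (Cmd.push 4 false)
    (Cmd.ask 4 (Cmd.seq (Cmd.pop 4) (Cmd.push 3 true))
      (Cmd.seq (Cmd.pop 4) (Cmd.seq (Cmd.pop 4) (Cmd.seq (Cmd.pop 4)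
        (Cmd.seq (Cmd.push 4 false) (Cmd.seq (Cmd.push 4 true) (Cmd.seq (Cmd.push 4 false)
          (Cmd.ask 4 (Cmd.seq (Cmd.pop 4) (Cmd.push 3 false))
            (Cmd.seq (Cmd.pop 4) (Cmd.seq (Cmd.pop 4) (Cmd.seq (Cmd.pop 4)
              (Cmd.pop 6))))))))))))))

theorem keyBody_true (B : Set Str) (v y : Str) (h : pt (true :: v) y ∈ B) :
    ExecLe B keyBody (st [] [] [] v (mark v ++ false :: y) [] [true]) 40
      (st [] [] [] (true :: v) (mark (true :: v) ++ false :: y) [] [true]) := by
  have h' : false :: true :: true :: (mark v ++ false :: y) ∈ B := by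
    have := h
    rwa [pt, mark_cons] at this
  rw [mark_cons]
  exact ((push4 B _ _ _ _ _ _ _ true).seq ((push4 B _ _ _ _ _ _ _ true).seq
    ((push4 B _ _ _ _ _ _ _ false).seq (ask4_yes h' ((pop4 B _ _ _ _ _ _ _).seq
      (push3 B _ _ _ _ _ _ _ true)))))).mono (by norm_num)

theorem keyBody_false (B : Set Str) (v y : Str) (h : pt (true :: v) y ∉ B)
    (h2 : pt (false :: v) y ∈ B) :
    ExecLe B keyBody (st [] [] [] v (mark v ++ false :: y) [] [true]) 40
      (st [] [] [] (false :: v) (mark (false :: v) ++ false :: y) [] [true]) := by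
  have h' : false :: true :: true :: (mark v ++ false :: y) ∉ B := by
    have := h
    rwa [pt, mark_cons] at this
  have h2' : false :: true :: false :: (mark v ++ false :: y) ∈ B := by
    have := h2
    rwa [pt, mark_cons] at this
  rw [mark_cons]
  exact ((push4 B _ _ _ _ _ _ _ true).seq ((push4 B _ _ _ _ _ _ _ true).seq
    ((push4 B _ _ _ _ _ _ _ false).seq (ask4_no h' ((pop4 B _ _ _ _ _ _ _).seq
      ((pop4 B _ _ _ _ _ _ _).seq ((pop4 B _ _ _ _ _ _ _).seq
      ((push4 B _ _ _ _ _ _ _ false).seq ((push4 B _ _ _ _ _ _ _ true).seq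
      ((push4 B _ _ _ _ _ _ _ false).seq (ask4_yes h2' ((pop4 B _ _ _ _ _ _ _).seq
      (push3 B _ _ _ _ _ _ _ false))))))))))))).mono (by norm_num)

theorem keyBody_end (B : Set Str) (v y : Str) (h : pt (true :: v) y ∉ B)
    (h2 : pt (false :: v) y ∉ B) :
    ExecLe B keyBody (st [] [] [] v (mark v ++ false :: y) [] [true]) 40
      (st [] [] [] v (mark v ++ false :: y) [] []) := by
  have h' : false :: true :: true :: (mark v ++ false :: y) ∉ B := by
    have := h
    rwa [pt, mark_cons] at this
  have h2' : false :: true :: false :: (mark v ++ false :: y) ∉ B := by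
    have := h2
    rwa [pt, mark_cons] at this
  exact ((push4 B _ _ _ _ _ _ _ true).seq ((push4 B _ _ _ _ _ _ _ true).seq
    ((push4 B _ _ _ _ _ _ _ false).seq (ask4_no h' ((pop4 B _ _ _ _ _ _ _).seq
      ((pop4 B _ _ _ _ _ _ _).seq ((pop4 B _ _ _ _ _ _ _).seq
      ((push4 B _ _ _ _ _ _ _ false).seq ((push4 B _ _ _ _ _ _ _ true).seq
      ((push4 B _ _ _ _ _ _ _ false).seq (ask4_no h2' ((pop4 B _ _ _ _ _ _ _).seq
      ((pop4 B _ _ _ _ _ _ _).seq ((pop4 B _ _ _ _ _ _ _).seq
      (pop6 B _ _ _ _ _ _ _))))))))))))))).mono (by norm_num)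

theorem keyLoop (B : Set Str) (y c : Str) (hB : ∀ v, pt v y ∈ B ↔ v <:+ c) (j : ℕ) :
    ∀ t v, t.length = j → c = t ++ v →
      ExecLe B (Cmd.loop 6 keyBody) (st [] [] [] v (mark v ++ false :: y) [] [true])
        (41 * (j + 1) + 1) (st [] [] [] c (mark c ++ false :: y) [] []) := by
  induction j with
  | zero =>
    intro t v ht hc
    have ht' : t = [] := List.length_eq_zero_iff.1 ht
    subst ht'
    rw [List.nil_append] at hc
    subst hc
    have h1 : ∀ b, pt (b :: c) y ∉ B := by
      intro b hb
      have := ((hB _).1 hb).length_le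
      simp at this
    exact (ExecLe.loop_step (i := 6) (by simp [st]) (keyBody_end B c y (h1 true) (h1 false))
      (ExecLe.loop_nil rfl)).mono (by norm_num)
  | succ j ih =>
    intro t v ht hc
    obtain ⟨t', b, rfl⟩ : ∃ t' b, t = t' ++ [b] := by
      rcases List.eq_nil_or_concat t with h | ⟨t', b, h⟩
      · rw [h] at ht; simp at ht
      · exact ⟨t', b, by rw [h, List.concat_eq_append]⟩
    have hc' : c = t' ++ (b :: v) := by rw [hc]; simp
    have ht' : t'.length = j := by simpa using ht
    have hb : pt (b :: v) y ∈ B := (hB _).2 ⟨t', hc'.symm⟩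
    have h1 := ih t' (b :: v) ht' hc'
    have h2 : ExecLe B keyBody (st [] [] [] v (mark v ++ false :: y) [] [true]) 40
        (st [] [] [] (b :: v) (mark (b :: v) ++ false :: y) [] [true]) := by
      cases b with
      | true => exact keyBody_true B v y hb
      | false =>
        refine keyBody_false B v y ?_ hb
        intro h
        obtain ⟨s, hs⟩ := (hB _).1 h
        have h3 : s ++ (true :: v) = t' ++ (false :: v) := by rw [hs, hc']
        have h4 := (List.append_inj' h3 (by simp)).2
        simp at h4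
    exact (ExecLe.loop_step (i := 6) (by simp [st]) h2 h1).mono (by omega)

/-- The program which computes the key of `inst i k x` from `x`. -/
def keyProg (i k : ℕ) : Cmd :=
  Cmd.seq (mv 2 5) (Cmd.seq (mv 5 4) (Cmd.seq (Cmd.push 4 false) (Cmd.seq (pushN true k)
    (Cmd.seq (Cmd.push 4 false) (Cmd.seq (pushN true i) (Cmd.seq (Cmd.push 4 false)
      (Cmd.seq (Cmd.push 6 true) (Cmd.loop 6 keyBody))))))))

theorem keyProg_spec (B : Set Str) (i k : ℕ) (x c : Str)
    (hB : ∀ v, pt v (inst i k x) ∈ B ↔ v <:+ c) :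
    ExecLe B (keyProg i k) (st [] [] x [] [] [] [])
      (10 * x.length + 2 * k + 2 * i + 41 * c.length + 100)
      (st [] [] [] c (mark c ++ false :: inst i k x) [] []) := by
  unfold keyProg
  have h1 := mv25 B [] [] [] [] [] x []
  have h2 := mv54 B [] [] [] [] [] [] x.reverse
  rw [List.append_nil] at h1
  simp only [List.reverse_reverse, List.append_nil, List.length_reverse] at h2
  have h3 := pushN_spec B true [] [] [] [] [] [] k (false :: x)
  have h4 := pushN_spec B true [] [] [] [] [] [] i (false :: (List.replicate k true ++ false :: x))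
  have h5 := keyLoop B (inst i k x) c hB c.length c [] rfl (by simp)
  exact (h1.seq (h2.seq ((push4 B _ _ _ _ _ _ _ false).seq (h3.seq
    ((push4 B _ _ _ _ _ _ _ false).seq (h4.seq ((push4 B _ _ _ _ _ _ _ false).seq
    ((push6 B _ _ _ _ _ _ _ true).seq h5)))))))).mono (by omega)

theorem out_keyProg (B : Set Str) (i k : ℕ) (x c : Str)
    (hB : ∀ v, pt v (inst i k x) ∈ B ↔ v <:+ c) {n : ℕ}
    (hn : 10 * x.length + 2 * k + 2 * i + 41 * c.length + 100 ≤ n) :
    out B (keyProg i k) [] [] x n = some c := by
  obtain ⟨m, hm, h1⟩ := keyProg_spec B i k x c hB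
  rw [← init_eq] at h1
  rw [out_of_exec h1 (hm.trans hn)]
  rfl

theorem out_keyProg_push (B : Set Str) (i k : ℕ) (x c : Str) (b : Bool)
    (hB : ∀ v, pt v (inst i k x) ∈ B ↔ v <:+ c) {n : ℕ}
    (hn : 10 * x.length + 2 * k + 2 * i + 41 * c.length + 102 ≤ n) :
    out B (Cmd.seq (keyProg i k) (Cmd.push 3 b)) [] [] x n = some (b :: c) := by
  obtain ⟨m, hm, h1⟩ := (keyProg_spec B i k x c hB).seq (push3 B _ _ _ _ _ _ _ b)
  rw [← init_eq] at h1
  rw [out_of_exec h1 (hm.trans (by omega))]
  rfl

/-- The verifier for the join of `A` with the set of all strings. -/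
def joinProg : Cmd :=
  Cmd.branch 2 (Cmd.push 3 false)
    (Cmd.branch 1 (Cmd.push 3 true) (Cmd.push 3 false) (Cmd.push 3 false))
    (Cmd.seq (Cmd.pop 2) (verProg true))

theorem out_joinProg (B : Set Str) (y z : Str) {n : ℕ}
    (hn : 12 * (y.length + z.length) + 32 ≤ n) :
    out B joinProg [] y z n = some [decide (((∃ z', z = false :: z') ∧ y = []) ∨
      ∃ c, z = true :: c ∧ wt true y c ∈ B)] := by
  cases z with
  | nil =>
    have h3 : ExecLe B joinProg (st [] y [] [] [] [] []) n (st [] y [] [false] [] [] []) := by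
      unfold joinProg
      exact (ExecLe.branch_nil rfl (push3 B _ _ _ _ _ _ _ false)).mono (by omega)
    obtain ⟨m, hm, h4⟩ := h3
    rw [← init_eq] at h4
    rw [out_of_exec h4 hm]
    simp [st]
  | cons b c =>
    cases b with
    | false =>
      cases y with
      | nil =>
        have h3 : ExecLe B joinProg (st [] [] (false :: c) [] [] [] []) n
            (st [] [] (false :: c) [true] [] [] []) := by
          unfold joinProg
          exact (ExecLe.branch_cons (b := false) (l := c) rfl
            (ExecLe.branch_nil rfl (push3 B _ _ _ _ _ _ _ true))).mono (by omega)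
        obtain ⟨m, hm, h4⟩ := h3
        rw [← init_eq] at h4
        rw [out_of_exec h4 hm]
        simp [st]
      | cons a y =>
        have h3 : ExecLe B joinProg (st [] (a :: y) (false :: c) [] [] [] []) n
            (st [] (a :: y) (false :: c) [false] [] [] []) := by
          unfold joinProg
          refine (ExecLe.branch_cons (b := false) (l := c) (n := 2) rfl
            (ExecLe.branch_cons (b := a) (l := y) (n := 1) rfl ?_)).mono (by omega)
          cases a <;> exact push3 B _ _ _ _ _ _ _ false
        obtain ⟨m, hm, h4⟩ := h3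
        rw [← init_eq] at h4
        rw [out_of_exec h4 hm]
        simp [st]
    | true =>
      obtain ⟨s', h1, h2⟩ := verProg_spec B true y c
      have h3 : ExecLe B joinProg (st [] y (true :: c) [] [] [] []) n s' := by
        unfold joinProg
        refine (ExecLe.branch_cons (b := true) (l := c) rfl
          ((pop2 B _ _ _ _ _ _ _).seq h1)).mono ?_
        simp only [List.length_cons] at hn
        omega
      obtain ⟨m, hm, h4⟩ := h3
      rw [← init_eq] at h4
      rw [out_of_exec h4 hm, h2]
      simp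

end Pool.IC
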