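import Pool.Agent.Work.OracleCmd_h91.Cmd

/-!
# NP, Karp reductions and completeness relative to an oracle (MP_cb380d_lc)
-/

open Classical

namespace Pool.IC

/-- The function `f` is computable in polynomial time relative to `B`. -/
def PolyFun (B : Set Str) (f : Str → Str) : Prop :=
  ∃ (M : Cmd) (q : Polynomial ℕ), ∀ x : Str, out B M [] [] x (q.eval x.length) = some (f x)

/-- `f` is a polynomial-time many-one (Karp) reduction of `L` to `A` relative to `B`. -/
def Karp (B L A : Set Str) (f : Str → Str) : Prop :=
  PolyFun B f ∧ ∀ x : Str, x ∈ L ↔ f x ∈ A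

/-- `L` is in NP relative to `B`: there is a set `V` of pairs (witness, input), decidable in
polynomial time relative to `B`, with witnesses of polynomial length, and a witness exactly for
the elements of `L`. -/
def InNP (B L : Set Str) : Prop :=
  ∃ (M : Cmd) (q r : Polynomial ℕ) (V : Set (Str × Str)),
    (∀ y z : Str, out B M [] y z (q.eval (y.length + z.length)) = some [decide ((y, z) ∈ V)]) ∧
    (∀ y z : Str, (y, z) ∈ V → y.length ≤ r.eval z.length) ∧
    ∀ z : Str, z ∈ L ↔ ∃ y, (y, z) ∈ V

/-- `L` is in UP relative to `B`: as in the definition of `InNP`, with at most one witness for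
every input. -/
def InUP1 (B L : Set Str) : Prop :=
  ∃ (M : Cmd) (q r : Polynomial ℕ) (V : Set (Str × Str)),
    (∀ y z : Str, out B M [] y z (q.eval (y.length + z.length)) = some [decide ((y, z) ∈ V)]) ∧
    (∀ y z : Str, (y, z) ∈ V → y.length ≤ r.eval z.length) ∧
    (∀ y y' z : Str, (y, z) ∈ V → (y', z) ∈ V → y = y') ∧
    ∀ z : Str, z ∈ L ↔ ∃ y, (y, z) ∈ V

/-- `A` is complete for NP relative to `B` under one-one polynomial-time many-one reductions. -/
def OneOneComplete (B A : Set Str) : Prop :=
  InNP B A ∧ ∀ L : Set Str, InNP B L → ∃ f : Str → Str, Karp B L A f ∧ Function.Injective f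

/-- The function `f` is honest: the length of `x` is bounded by a polynomial in the length of
`f x`.  Every length-increasing function is honest. -/
def Honest (f : Str → Str) : Prop :=
  ∃ h : Polynomial ℕ, ∀ x : Str, x.length ≤ h.eval (f x).length

end Pool.IC
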