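import Pool.Agent.Work.MP_cb380d_h91.Region
import Pool.Agent.Work.MP_cb380d_h91.KeyProg
import Pool.Agent.Work.MP_cb380d_h91.Model
import Pool.Agent.Work.MP_af7a01_h91.Inst

open Classical

namespace Pool.IC

/-! ### The sequence of regions -/

/-- The bound of the questions in a region, as a polynomial in the first size. -/
noncomputable def bdPoly (q h : Polynomial ℕ) : Polynomial ℕ :=
  h + 1 + q.comp (h + 1) + (Polynomial.X + q)

theorem bdPoly_eval (q h : Polynomial ℕ) (n : ℕ) :
    (bdPoly q h).eval n = h.eval n + 1 + q.eval (h.eval n + 1) + (n + q.eval n) := by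
  unfold bdPoly
  simp only [Polynomial.eval_add, Polynomial.eval_comp, Polynomial.eval_one, Polynomial.eval_X]

theorem exists_thr (q h : Polynomial ℕ) :
    ∃ thr : ℕ, 2 ≤ thr ∧ ∀ L ≥ thr, (bdPoly q h).eval (2 * L) < 2 ^ (L - 1) := by
  obtain ⟨m0, hm0⟩ := Filter.eventually_atTop.1 (poly_growth (bdPoly q h) 4)
  refine ⟨m0 + 2, by omega, fun L hL => ?_⟩
  have h1 := hm0 L (by omega)
  have h2 : (bdPoly q h).eval (2 * L) ≤ (bdPoly q h).eval (16 * L) := eval_mono _ (by omega)
  have h3 : 2 ^ L = 2 ^ (L - 1) * 2 := by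
    rw [← pow_succ]
    congr 1
    omega
  have h4 : 0 < 2 ^ (L - 1) := by positivity
  omega

theorem exists_regions (N : ℕ → Cmd) (tr : ℕ → Cmd × Polynomial ℕ × Polynomial ℕ) :
    ∃ r : ℕ → Region, (r 0).n = 2 ∧ (∀ j, (r (j + 1)).n = (r j).n') ∧
      (∀ j, Good N (⋃ i, ⋃ (_ : i < j), (r i).part) (r j)) ∧
      ∀ j, Diag (⋃ i, ⋃ (_ : i < j + 1), (r i).part) (r (j + 1)) (tr j).1 (tr j).2.1 (tr j).2.2 := by
  choose thr hthr2 hthr using fun j => exists_thr (tr j).2.1 (tr j).2.2
  have hnx : ∀ (j : ℕ) (O : Set Str) (L : ℕ), ∃ r : Region, thr j ≤ L →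
      Good N O r ∧ Diag O r (tr j).1 (tr j).2.1 (tr j).2.2 ∧ r.n = 2 * L ∧
      ∃ L', r.n' = 2 * L' ∧ thr (j + 1) ≤ L' := by
    intro j O L
    by_cases hL : thr j ≤ L
    · set b := (bdPoly (tr j).2.1 (tr j).2.2).eval (2 * L) with hb
      obtain ⟨r, h1, h2, h3, h4⟩ := exists_region N O (tr j).1 (tr j).2.1 (tr j).2.2 L
        (b + 1 + thr (j + 1)) b (by have := hthr2 j; omega) (by rw [hb, bdPoly_eval])
        (hthr j L hL) (by omega)
      exact ⟨r, fun _ => ⟨h1, h2, h3, _, h4, by omega⟩⟩
    · exact ⟨⟨0, 0, id, ∅⟩, fun h => absurd h hL⟩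
  choose nx hnx using hnx
  obtain ⟨r0, hr0, hr0n, hr0n'⟩ := exists_first N ∅ 2 (thr 0) (by have := hthr2 0; omega)
  -- the states
  let state : ℕ → Set Str × ℕ := fun k => Nat.rec (r0.part, thr 0)
    (fun j s => (s.1 ∪ (nx j s.1 s.2).part, (nx j s.1 s.2).n' / 2)) k
  have hs0 : state 0 = (r0.part, thr 0) := rfl
  have hs : ∀ k, state (k + 1) = ((state k).1 ∪ (nx k (state k).1 (state k).2).part,
      (nx k (state k).1 (state k).2).n' / 2) := fun _ => rfl
  have hthrs : ∀ k, thr k ≤ (state k).2 := by
    intro k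
    cases k with
    | zero => rw [hs0]
    | succ k =>
      have ih : ∀ k, thr k ≤ (state k).2 := by
        intro k
        induction k with
        | zero => rw [hs0]
        | succ k ih =>
          obtain ⟨-, -, -, L', h1, h2⟩ := hnx k (state k).1 (state k).2 ih
          rw [hs]
          show _ ≤ (nx k (state k).1 (state k).2).n' / 2
          omega
      exact ih (k + 1)
  set r : ℕ → Region := fun k => match k with
    | 0 => r0
    | j + 1 => nx j (state j).1 (state j).2 with hr
  have hU : ∀ k, (state k).1 = ⋃ i, ⋃ (_ : i < k + 1), (r i).part := by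
    intro k
    induction k with
    | zero =>
      rw [hs0]
      ext s
      simp only [Set.mem_iUnion, exists_prop]
      constructor
      · intro h
        exact ⟨0, by omega, h⟩
      · rintro ⟨i, hi, h⟩
        have : i = 0 := by omega
        subst this
        exact h
    | succ k ih =>
      rw [hs]
      show (state k).1 ∪ (nx k (state k).1 (state k).2).part = _
      ext s
      simp only [Set.mem_union, Set.mem_iUnion, exists_prop]
      constructor
      · rintro (h | h)
        · rw [ih] at h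
          simp only [Set.mem_iUnion, exists_prop] at h
          obtain ⟨i, hi, h⟩ := h
          exact ⟨i, by omega, h⟩
        · exact ⟨k + 1, by omega, h⟩
      · rintro ⟨i, hi, h⟩
        rcases Nat.lt_succ_iff_lt_or_eq.1 hi with hi | rfl
        · left
          rw [ih]
          simp only [Set.mem_iUnion, exists_prop]
          exact ⟨i, hi, h⟩
        · exact Or.inr h
  refine ⟨r, hr0n, ?_, ?_, ?_⟩
  · intro j
    obtain ⟨-, -, h3, -⟩ := hnx j (state j).1 (state j).2 (hthrs j)
    show (nx j (state j).1 (state j).2).n = _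
    rw [h3]
    cases j with
    | zero =>
      show 2 * (state 0).2 = r0.n'
      rw [hs0, hr0n']
    | succ j =>
      obtain ⟨-, -, -, L', h1, -⟩ := hnx j (state j).1 (state j).2 (hthrs j)
      show 2 * (state (j + 1)).2 = (nx j (state j).1 (state j).2).n'
      rw [hs]
      show 2 * ((nx j (state j).1 (state j).2).n' / 2) = _
      omega
  · intro j
    cases j with
    | zero =>
      have : (⋃ i, ⋃ (_ : i < 0), (r i).part) = ∅ := by simp
      rw [this]
      exact hr0
    | succ j =>
      rw [← hU j]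
      exact (hnx j (state j).1 (state j).2 (hthrs j)).1
  · intro j
    rw [← hU j]
    exact (hnx j (state j).1 (state j).2 (hthrs j)).2.1

section
variable {N : ℕ → Cmd} {r : ℕ → Region}

/-- The properties of the sequence of regions. -/
structure Chain (N : ℕ → Cmd) (r : ℕ → Region) : Prop where
  zero : (r 0).n = 2
  succ : ∀ j, (r (j + 1)).n = (r j).n'
  good : ∀ j, Good N (⋃ i, ⋃ (_ : i < j), (r i).part) (r j)

/-- The oracle. -/
def whole (r : ℕ → Region) : Set Str := ⋃ i, (r i).part

theorem Chain.n_lt (h : Chain N r) (j : ℕ) : (r j).n < (r (j + 1)).n := by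
  rw [h.succ]
  exact (h.good j).lt

theorem Chain.mono (h : Chain N r) {i j : ℕ} (hij : i ≤ j) : (r i).n ≤ (r j).n := by
  induction hij with
  | refl => exact le_rfl
  | step _ ih => exact ih.trans (h.n_lt _).le

theorem Chain.n'_le (h : Chain N r) {i j : ℕ} (hij : i < j) : (r i).n' ≤ (r j).n := by
  rw [← h.succ]
  exact h.mono hij

theorem Chain.ge (h : Chain N r) (j : ℕ) : j ≤ (r j).n := by
  induction j with
  | zero => exact Nat.zero_le _
  | succ j ih =>
    have := h.n_lt j
    omega

theorem Chain.region (h : Chain N r) (y : Str) : ∃ i, Reg sz (r i).n (r i).n' y := by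
  have h1 : ∃ j, sz y < (r j).n' := by
    refine ⟨sz y, ?_⟩
    have h2 := h.ge (sz y + 1)
    rw [h.succ] at h2
    omega
  refine ⟨Nat.find h1, ?_, Nat.find_spec h1⟩
  rcases Nat.eq_zero_or_pos (Nat.find h1) with h2 | h2
  · rw [h2, h.zero]
    unfold sz
    omega
  · obtain ⟨j, hj⟩ : ∃ j, Nat.find h1 = j + 1 := ⟨Nat.find h1 - 1, by omega⟩
    have h3 := Nat.find_min h1 (m := j) (by omega)
    rw [hj, h.succ]
    omega

theorem Chain.unique (h : Chain N r) {y : Str} {i j : ℕ} (hi : Reg sz (r i).n (r i).n' y)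
    (hj : Reg sz (r j).n (r j).n' y) : i = j := by
  obtain ⟨h1, h2⟩ := hi
  obtain ⟨h3, h4⟩ := hj
  rcases lt_trichotomy i j with h5 | h5 | h5
  · have := h.n'_le h5; omega
  · exact h5
  · have := h.n'_le h5; omega

/-- The region of an instance. -/
noncomputable def idx (h : Chain N r) (y : Str) : ℕ := (h.region y).choose

theorem idx_spec (h : Chain N r) (y : Str) : Reg sz (r (idx h y)).n (r (idx h y)).n' y :=
  (h.region y).choose_spec

/-- The key of an instance. -/
noncomputable def kf (h : Chain N r) (y : Str) : Str := (r (idx h y)).key y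

theorem kf_eq (h : Chain N r) {y : Str} {i : ℕ} (hi : Reg sz (r i).n (r i).n' y) :
    kf h y = (r i).key y := by
  unfold kf
  rw [h.unique (idx_spec h y) hi]

/-- Lengths of keys. -/
theorem Chain.key_length (h : Chain N r) {y : Str} {i : ℕ} (hi : Reg sz (r i).n (r i).n' y) :
    (r i).n ≤ ((r i).key y).length ∧ ((r i).key y).length < (r i).n' ∧
      ((r i).key y).length ≤ sz y := by
  have h1 := (h.good i).lt
  rcases (h.good i).keys y hi with ⟨b, h2⟩ | ⟨u, L, h2, h3, h4⟩
  · rw [h2, length_rk]
    exact ⟨hi.1, hi.2, le_rfl⟩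
  · rw [h4, length_sk]
    have := hi.1
    omega

theorem Chain.mem_pt (h : Chain N r) (v y : Str) : pt v y ∈ whole r ↔ v <:+ kf h y := by
  unfold whole
  rw [Set.mem_iUnion]
  constructor
  · rintro ⟨i, ⟨v', y', h1, h2, h3⟩ | h1⟩
    · obtain ⟨rfl, rfl⟩ := pt_inj h3
      rw [kf_eq h h1]
      exact h2
    · rcases (h.good i).form _ h1 with ⟨y', w, -, h2, -⟩ | ⟨x, w, -, -, h2⟩
      · exact absurd h2 pt_ne_wt
      · exact absurd h2 pt_ne_wt
  · intro h1
    exact ⟨idx h y, Or.inl ⟨v, y, idx_spec h y, h1, rfl⟩⟩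

theorem Chain.mem_wt (_h : Chain N r) {b : Bool} {w c : Str} :
    wt b w c ∈ whole r ↔ ∃ i, wt b w c ∈ (r i).W := by
  unfold whole
  rw [Set.mem_iUnion]
  constructor
  · rintro ⟨i, ⟨v', y', h1, h2, h3⟩ | h1⟩
    · exact absurd h3.symm pt_ne_wt
    · exact ⟨i, h1⟩
  · rintro ⟨i, h1⟩
    exact ⟨i, Or.inr h1⟩

theorem Chain.wt_true (h : Chain N r) {i : ℕ} {w c : Str} (hw : wt true w c ∈ (r i).W) :
    ∃ y, Reg sz (r i).n (r i).n' y ∧ c = (r i).key y ∧ w.length = c.length ^ 2 := by
  rcases (h.good i).form _ hw with ⟨y, w', h1, h2, h3⟩ | ⟨x, w', -, -, h2⟩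
  · obtain ⟨-, h4, h5⟩ := wt_inj h2
    exact ⟨y, h1, h5, by rw [h4, h5, h3]⟩
  · exact absurd (wt_inj h2).1 (by simp)

theorem Chain.wt_false (h : Chain N r) {i : ℕ} {w x : Str} (hw : wt false w x ∈ (r i).W) :
    x.length = (r i).n ∧ w.length = x.length ^ 2 := by
  rcases (h.good i).form _ hw with ⟨y, w', h1, h2, h3⟩ | ⟨x', w', h1, h3, h2⟩
  · exact absurd (wt_inj h2).1 (by simp)
  · obtain ⟨-, h4, h5⟩ := wt_inj h2
    rw [h4, h5, h1]
    exact ⟨rfl, h3⟩

theorem Chain.mem_key (h : Chain N r) (w y : Str) :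
    wt true w (kf h y) ∈ whole r ↔ wt true w (kf h y) ∈ (r (idx h y)).W := by
  rw [h.mem_wt]
  constructor
  · rintro ⟨i, hi⟩
    obtain ⟨y', h1, h2, -⟩ := h.wt_true hi
    have h3 := h.key_length h1
    have h4 := h.key_length (idx_spec h y)
    have h5 : (r (idx h y)).key y = (r i).key y' := h2
    rw [h5] at h4
    rcases lt_trichotomy i (idx h y) with h6 | h6 | h6
    · have := h.n'_le h6; omega
    · rw [← h6]; exact hi
    · have := h.n'_le h6; omega
  · intro h1
    exact ⟨_, h1⟩

/-- Up to the length `n'` of region `j` the oracle is as it looks after region `j`. -/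
theorem Chain.agree (h : Chain N r) (j : ℕ) (s : Str) (hs : s.length < (r j).n') :
    s ∈ whole r ↔ s ∈ look (⋃ i, ⋃ (_ : i < j), (r i).part) (r j) := by
  unfold look
  simp only [Set.mem_union, Set.mem_iUnion, exists_prop]
  constructor
  · intro h1
    obtain ⟨i, hi⟩ := Set.mem_iUnion.1 h1
    rcases lt_trichotomy i j with hij | hij | hij
    · exact Or.inl ⟨i, hij, hi⟩
    · subst hij
      exact Or.inr (Or.inl hi)
    · right; right
      have h2 := h.n'_le hij
      rcases hi with ⟨v, y, h3, h4, rfl⟩ | h3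
      · rw [length_pt] at hs
        have h5 : v = List.replicate v.length false := by
          rcases (h.good i).keys y h3 with ⟨b, h6⟩ | ⟨u, L, h6, h7, h8⟩
          · rw [h6, suffix_rk] at h4
            · exact h4
            · have := h3.1; omega
          · rw [h8, suffix_sk] at h4
            · exact h4
            · omega
        exact ⟨v.length, y, by have := h3.1; omega, by rw [← h5]⟩
      · exfalso
        rcases (h.good i).form _ h3 with ⟨y, w, h4, rfl, h5⟩ | ⟨x, w, h4, h5, rfl⟩
        · rw [length_wt] at hs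
          have := h.key_length h4
          omega
        · rw [length_wt] at hs
          omega
  · rintro (⟨i, -, hi⟩ | hi | ⟨t, y, h1, rfl⟩)
    · exact Set.mem_iUnion.2 ⟨i, hi⟩
    · exact Set.mem_iUnion.2 ⟨j, hi⟩
    · rw [h.mem_pt]
      have h2 := idx_spec h y
      have h3 : j < idx h y := by
        by_contra hcon
        rcases Nat.lt_or_eq_of_le (not_lt.1 hcon) with h4 | h4
        · have := h.n'_le h4
          have := h2.2
          have := (h.good j).lt
          omega
        · have := h2.2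
          rw [h4] at this
          omega
      have h4 := h.n'_le h3
      rw [length_pt, List.length_replicate] at hs
      unfold kf
      rcases (h.good (idx h y)).keys y h2 with ⟨b, h6⟩ | ⟨u, L, h6, h7, h8⟩
      · rw [h6, suffix_rk]
        · simp
        · rw [List.length_replicate]
          omega
      · rw [h8, suffix_sk]
        · simp
        · rw [List.length_replicate]
          omega

theorem Chain.acc (h : Chain N r) (y : Str) :
    (∃ w, wt true w (kf h y) ∈ whole r) ↔ Accp N (whole r) y := by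
  have h1 := (h.good (idx h y)).acc y (idx_spec h y)
  have h2 : Accp N (whole r) y ↔
      Accp N (look (⋃ i, ⋃ (_ : i < idx h y), (r i).part) (r (idx h y))) y :=
    (certified N).congr fun s hs => h.agree _ s (by have := (idx_spec h y).2; omega)
  rw [h2, ← h1]
  exact exists_congr fun w => h.mem_key w y

theorem Chain.kf_inj (h : Chain N r) : Function.Injective (kf h) := by
  intro y y' hyy
  have h1 := idx_spec h y
  have h2 := idx_spec h y'
  have h3 := h.key_length h1
  have h4 := h.key_length h2
  have h5 : (r (idx h y)).key y = (r (idx h y')).key y' := hyy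
  have h6 : idx h y = idx h y' := by
    rw [h5] at h3
    rcases lt_trichotomy (idx h y) (idx h y') with h7 | h7 | h7
    · have := h.n'_le h7; omega
    · exact h7
    · have := h.n'_le h7; omega
  rw [← h6] at h5 h2
  exact (h.good (idx h y)).inj y y' h1 h2 h5

end

end Pool.IC
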