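import Pool.Agent.Work.MP_cb380d_h91.Core
import Pool.Agent.Work.OracleCmd_h91.Exec

open Classical

namespace Pool.IC

/-! ### Instances -/

/-- Number of leading `true`s. -/
def lead (y : Str) : ℕ := (y.takeWhile id).length

/-- What follows the first `false`. -/
def rest (y : Str) : Str := y.drop (lead y + 1)

/-- The instance with program number `i`, exponent `k` and input `x`. -/
def inst (i k : ℕ) (x : Str) : Str :=
  List.replicate i true ++ false :: (List.replicate k true ++ false :: x)

theorem lead_rep (i : ℕ) (r : Str) : lead (List.replicate i true ++ false :: r) = i := by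
  unfold lead
  rw [List.takeWhile_append_of_pos]
  · simp
  · intro a ha
    rw [List.mem_replicate] at ha
    simp [ha.2]

theorem rest_rep (i : ℕ) (r : Str) : rest (List.replicate i true ++ false :: r) = r := by
  unfold rest
  rw [lead_rep, List.drop_append]
  simp

theorem length_rest (y : Str) : (rest y).length ≤ y.length := by
  unfold rest
  rw [List.length_drop]
  omega

/-- Exponent of an instance. -/
def exq (y : Str) : ℕ := lead (rest y)

/-- Input of an instance. -/
def inp (y : Str) : Str := rest (rest y)

/-- Time bound of an instance. -/
def tm (y : Str) : ℕ := ((inp y).length + exq y) ^ exq y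

theorem lead_inst (i k : ℕ) (x : Str) : lead (inst i k x) = i := lead_rep _ _

theorem exq_inst (i k : ℕ) (x : Str) : exq (inst i k x) = k := by
  unfold exq inst
  rw [rest_rep, lead_rep]

theorem inp_inst (i k : ℕ) (x : Str) : inp (inst i k x) = x := by
  unfold inp inst
  rw [rest_rep, rest_rep]

theorem length_inp (y : Str) : (inp y).length ≤ y.length :=
  (length_rest _).trans (length_rest _)

theorem length_inst (i k : ℕ) (x : Str) : (inst i k x).length = i + k + x.length + 2 := by
  simp [inst]; ring

/-- Size of an instance (length of a regular key). -/
def sz (y : Str) : ℕ := 6 * y.length + 3 * tm y + 11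

/-- Acceptance of the instance `y` relative to `O`; `N` is an enumeration of the programs. -/
def Accp (N : ℕ → Cmd) (O : Set Str) (y : Str) : Prop :=
  ∃ z : Str, z.length ≤ tm y ∧ out O (N (lead y)) [] z (inp y) (tm y) = some [true]

theorem certified (N : ℕ → Cmd) : Certified sz (Accp N) := by
  rintro y O ⟨z, hz, ho⟩
  refine ⟨queries O (N (lead y)) [] z (inp y) (tm y), ?_, ?_, ?_⟩
  · have := card_queries O (N (lead y)) [] z (inp y) (tm y)
    unfold sz
    omega
  · intro s hs
    have h1 := length_queries hs
    have h2 := length_inp y
    rw [List.length_nil] at h1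
    unfold sz
    omega
  · intro O' hO'
    refine ⟨z, hz, ?_⟩
    rw [← ho]
    exact (out_congr le_rfl hO').symm

/-! ### Keys -/

/-- Regular keys. -/
def rk (b : Bool) (y : Str) : Str :=
  true :: b :: (mark y ++ false :: List.replicate (4 * y.length + 3 * tm y + 8) false)

/-- Special keys. -/
def sk (u : Str) (L : ℕ) : Str := false :: (u ++ List.replicate L false)

theorem length_rk (b : Bool) (y : Str) : (rk b y).length = sz y := by
  unfold rk sz
  simp only [List.length_cons, List.length_append, length_mark, List.length_replicate]
  ring

theorem length_sk (u : Str) (L : ℕ) : (sk u L).length = u.length + L + 1 := by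
  simp [sk]

theorem rk_inj {b b' : Bool} {y y' : Str} (h : rk b y = rk b' y') : b = b' ∧ y = y' := by
  unfold rk at h
  simp only [List.cons.injEq, true_and] at h
  exact ⟨h.1, (mark_inj _ _ _ _ h.2).1⟩

theorem sk_inj {u u' : Str} {L : ℕ} (hu : u.length = u'.length) (h : sk u L = sk u' L) :
    u = u' := by
  unfold sk at h
  simp only [List.cons.injEq, true_and] at h
  exact (List.append_inj h hu).1

theorem sk_ne_rk {u : Str} {L : ℕ} {b : Bool} {y : Str} : sk u L ≠ rk b y := by
  simp [sk, rk]

/-- Suffixes of a string which ends with many `false`s. -/
theorem suffix_false {v a : Str} {L : ℕ} (hv : v.length ≤ L) :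
    v <:+ (a ++ List.replicate L false) ↔ v = List.replicate v.length false := by
  have h1 : List.replicate L false = List.replicate (L - v.length) false ++
      List.replicate v.length false := by
    rw [← List.replicate_add]
    congr 1
    omega
  rw [h1, ← List.append_assoc]
  constructor
  · rintro ⟨t, ht⟩
    exact (List.append_inj' ht (by simp)).2
  · intro h
    refine ⟨a ++ List.replicate (L - v.length) false, ?_⟩
    rw [← h]

theorem suffix_rk {v : Str} {b : Bool} {y : Str} (hv : 2 * v.length ≤ sz y) :
    v <:+ rk b y ↔ v = List.replicate v.length false := by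
  have h1 : rk b y = (true :: b :: (mark y ++ [false])) ++
      List.replicate (4 * y.length + 3 * tm y + 8) false := by
    simp [rk]
  rw [h1]
  refine suffix_false ?_
  unfold sz at hv
  omega

theorem suffix_sk {v u : Str} {L : ℕ} (hv : v.length ≤ L) :
    v <:+ sk u L ↔ v = List.replicate v.length false := by
  have h1 : sk u L = (false :: u) ++ List.replicate L false := by
    simp [sk]
  rw [h1]
  exact suffix_false hv

/-! ### The strings that give the keys -/

/-- `pt v y` in the oracle: `v` is a suffix of the key of `y`. -/
def pt (v y : Str) : Str := false :: (mark v ++ false :: y)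

theorem pt_inj {v v' y y' : Str} (h : pt v y = pt v' y') : v = v' ∧ y = y' := by
  unfold pt at h
  simp only [List.cons.injEq, true_and] at h
  exact mark_inj _ _ _ _ h

theorem pt_ne_wt {v y w z : Str} {b : Bool} : pt v y ≠ wt b w z := by simp [pt, wt]

theorem length_pt (v y : Str) : (pt v y).length = 2 * v.length + y.length + 2 := by
  simp [pt, length_mark]; ring

end Pool.IC
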