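import Pool.Agent.Work.MP_cb380d_h91.Final

open Classical

namespace Pool.IC

/-- The complete set: the keys which have a witness. -/
def setA (B : Set Str) : Set Str := {c | ∃ w, wt true w c ∈ B}

/-- The join of `A` with the set of all strings. -/
def join (A : Set Str) : Set Str := {s | (∃ z, s = false :: z) ∨ ∃ c ∈ A, s = true :: c}

/-- The set which is in UP but not in P. -/
def setE (B : Set Str) : Set Str := {x | ∃ w, wt false w x ∈ B}

theorem exists_exponent (P : Polynomial ℕ) : ∃ k : ℕ, ∀ n : ℕ, P.eval n ≤ (n + k) ^ k := by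
  induction P using Polynomial.induction_on' with
  | add P Q hP hQ =>
    obtain ⟨k1, h1⟩ := hP
    obtain ⟨k2, h2⟩ := hQ
    refine ⟨k1 + k2 + 2, fun n => ?_⟩
    rw [Polynomial.eval_add]
    set x := n + (k1 + k2 + 2) with hx
    have h3 : (n + k1) ^ k1 ≤ x ^ (k1 + k2) :=
      (Nat.pow_le_pow_left (by omega) k1).trans (Nat.pow_le_pow_right (by omega) (by omega))
    have h4 : (n + k2) ^ k2 ≤ x ^ (k1 + k2) :=
      (Nat.pow_le_pow_left (by omega) k2).trans (Nat.pow_le_pow_right (by omega) (by omega))
    calc P.eval n + Q.eval n ≤ x ^ (k1 + k2) + x ^ (k1 + k2) :=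
          Nat.add_le_add ((h1 n).trans h3) ((h2 n).trans h4)
      _ = 2 * x ^ (k1 + k2) := by ring
      _ ≤ x * x ^ (k1 + k2) := Nat.mul_le_mul_right _ (by omega)
      _ = x ^ (k1 + k2 + 1) := by ring
      _ ≤ x ^ (k1 + k2 + 2) := Nat.pow_le_pow_right (by omega) (by omega)
  | monomial d a =>
    refine ⟨a + d + 1, fun n => ?_⟩
    rw [Polynomial.eval_monomial]
    set x := n + (a + d + 1) with hx
    calc a * n ^ d ≤ x * x ^ d := Nat.mul_le_mul (by omega) (Nat.pow_le_pow_left (by omega) d)
      _ = x ^ (d + 1) := by ring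
      _ ≤ x ^ (a + d + 1) := Nat.pow_le_pow_right (by omega) (by omega)

section
variable {N : ℕ → Cmd} {r : ℕ → Region}

theorem Chain.inNP_A (h : Chain N r) : InNP (whole r) (setA (whole r)) := by
  refine ⟨verProg true, Polynomial.C 12 * Polynomial.X + Polynomial.C 30, Polynomial.X ^ 2,
    {yz | wt true yz.1 yz.2 ∈ whole r}, ?_, ?_, fun z => Iff.rfl⟩
  · intro y z
    refine out_verProg (whole r) true y z ?_
    simp only [Polynomial.eval_add, Polynomial.eval_mul, Polynomial.eval_C, Polynomial.eval_X]
    exact le_rfl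
  · intro y z hy
    obtain ⟨i, hi⟩ := h.mem_wt.1 hy
    obtain ⟨-, -, -, h1⟩ := h.wt_true hi
    simp only [Polynomial.eval_pow, Polynomial.eval_X]
    exact h1.le

theorem Chain.inNP_join (h : Chain N r) : InNP (whole r) (join (setA (whole r))) := by
  refine ⟨joinProg, Polynomial.C 12 * Polynomial.X + Polynomial.C 32, Polynomial.X ^ 2,
    {yz | ((∃ z', yz.2 = false :: z') ∧ yz.1 = []) ∨
      ∃ c, yz.2 = true :: c ∧ wt true yz.1 c ∈ whole r}, ?_, ?_, ?_⟩
  · intro y z
    refine (out_joinProg (whole r) y z ?_).trans ?_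
    · simp only [Polynomial.eval_add, Polynomial.eval_mul, Polynomial.eval_C, Polynomial.eval_X]
      exact le_rfl
    · congr 2
      exact decide_eq_decide.2 Iff.rfl
  · rintro y z (⟨-, hy⟩ | ⟨c, hz, hy⟩)
    · have hy' : y = [] := hy
      rw [hy']
      simp
    · obtain ⟨i, hi⟩ := h.mem_wt.1 hy
      obtain ⟨-, -, -, h1⟩ := h.wt_true hi
      have hz' : z = true :: c := hz
      have h1' : y.length = c.length ^ 2 := h1
      simp only [Polynomial.eval_pow, Polynomial.eval_X]
      rw [hz', h1', List.length_cons]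
      exact Nat.pow_le_pow_left (by omega) 2
  · intro z
    constructor
    · rintro (⟨z', rfl⟩ | ⟨c, ⟨w, hw⟩, rfl⟩)
      · exact ⟨[], Or.inl ⟨⟨z', rfl⟩, rfl⟩⟩
      · exact ⟨w, Or.inr ⟨c, rfl, hw⟩⟩
    · rintro ⟨y, (⟨⟨z', hz⟩, -⟩ | ⟨c, hz, hy⟩)⟩
      · exact Or.inl ⟨z', hz⟩
      · exact Or.inr ⟨c, ⟨y, hy⟩, hz⟩

/-- Time bound of the programs computing the keys. -/
noncomputable def keyTime (i k : ℕ) : Polynomial ℕ :=
  Polynomial.C 10 * Polynomial.X + Polynomial.C (2 * k + 2 * i + 102) +
    Polynomial.C 41 * (Polynomial.C 6 * (Polynomial.X + Polynomial.C (i + k + 2)) +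
      Polynomial.C 3 * (Polynomial.X + Polynomial.C k) ^ k + Polynomial.C 11)

theorem Chain.keyTime_le (h : Chain N r) (i k : ℕ) (x : Str) :
    10 * x.length + 2 * k + 2 * i + 41 * (kf h (inst i k x)).length + 102 ≤
      (keyTime i k).eval x.length := by
  have h1 : (kf h (inst i k x)).length ≤ sz (inst i k x) := (h.key_length (idx_spec h _)).2.2
  have h2 : sz (inst i k x) = 6 * (x.length + (i + k + 2)) + 3 * (x.length + k) ^ k + 11 := by
    unfold sz tm
    rw [exq_inst, inp_inst, length_inst]
    ring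
  unfold keyTime
  simp only [Polynomial.eval_add, Polynomial.eval_mul, Polynomial.eval_C, Polynomial.eval_X,
    Polynomial.eval_pow]
  rw [h2] at h1
  omega

/-- Every set in NP is reduced to `A` by the keys. -/
theorem Chain.hard (h : Chain N r) (hN : Function.Surjective N) {S : Set Str}
    (hS : InNP (whole r) S) :
    ∃ i k : ℕ, ∀ x, x ∈ S ↔ kf h (inst i k x) ∈ setA (whole r) := by
  obtain ⟨M, q, p, V, hV1, hV2, hV3⟩ := hS
  obtain ⟨i, rfl⟩ := hN M
  obtain ⟨k, hk⟩ := exists_exponent (q.comp (p + Polynomial.X) + p)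
  have hk' : ∀ n : ℕ, q.eval (p.eval n + n) + p.eval n ≤ (n + k) ^ k := by
    intro n
    have := hk n
    simpa only [Polynomial.eval_add, Polynomial.eval_comp, Polynomial.eval_X] using this
  refine ⟨i, k, fun x => ?_⟩
  have htm : tm (inst i k x) = (x.length + k) ^ k := by
    unfold tm
    rw [exq_inst, inp_inst]
  have hkx := hk' x.length
  have h1 : kf h (inst i k x) ∈ setA (whole r) ↔ Accp N (whole r) (inst i k x) := h.acc _
  rw [h1, hV3 x]
  unfold Accp
  rw [lead_inst, inp_inst, htm]
  constructor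
  · rintro ⟨z, hz⟩
    have h2 := hV2 z x hz
    refine ⟨z, by omega, ?_⟩
    have h3 := hV1 z x
    have h4 : q.eval (z.length + x.length) ≤ q.eval (p.eval x.length + x.length) :=
      eval_mono q (by omega)
    have h5 := out_mono h3 (N := (x.length + k) ^ k) (by omega)
    rw [h5]
    simp [hz]
  · rintro ⟨z, hz, ho⟩
    refine ⟨z, ?_⟩
    have h3 := out_det (hV1 z x) ho
    simpa using h3

theorem Chain.complete_A (h : Chain N r) (hN : Function.Surjective N) :
    OneOneComplete (whole r) (setA (whole r)) := by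
  refine ⟨h.inNP_A, fun S hS => ?_⟩
  obtain ⟨i, k, hik⟩ := h.hard hN hS
  refine ⟨fun x => kf h (inst i k x), ⟨⟨keyProg i k, keyTime i k, fun x => ?_⟩, hik⟩, ?_⟩
  · refine out_keyProg (whole r) i k x _ (fun v => h.mem_pt v _) ?_
    have := h.keyTime_le i k x
    omega
  · intro x x' hx
    have h1 := h.kf_inj hx
    rw [← inp_inst i k x, h1, inp_inst]

theorem Chain.complete_join (h : Chain N r) (hN : Function.Surjective N) :
    OneOneComplete (whole r) (join (setA (whole r))) := by
  refine ⟨h.inNP_join, fun S hS => ?_⟩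
  obtain ⟨i, k, hik⟩ := h.hard hN hS
  refine ⟨fun x => true :: kf h (inst i k x),
    ⟨⟨Cmd.seq (keyProg i k) (Cmd.push 3 true), keyTime i k, fun x => ?_⟩, fun x => ?_⟩, ?_⟩
  · refine out_keyProg_push (whole r) i k x _ true (fun v => h.mem_pt v _) ?_
    have := h.keyTime_le i k x
    omega
  · rw [hik x]
    constructor
    · intro h1
      exact Or.inr ⟨_, h1, rfl⟩
    · rintro (⟨z, hz⟩ | ⟨c, hc, hz⟩)
      · exact absurd (List.cons.inj hz).1 (by simp)
      · rw [(List.cons.inj hz).2]
        exact hc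
  · intro x x' hx
    have h1 := h.kf_inj (List.cons.inj hx).2
    rw [← inp_inst i k x, h1, inp_inst]

theorem Chain.inUP_E (h : Chain N r) : InUP1 (whole r) (setE (whole r)) := by
  refine ⟨verProg false, Polynomial.C 12 * Polynomial.X + Polynomial.C 30, Polynomial.X ^ 2,
    {yz | wt false yz.1 yz.2 ∈ whole r}, ?_, ?_, ?_, fun z => Iff.rfl⟩
  · intro y z
    refine out_verProg (whole r) false y z ?_
    simp only [Polynomial.eval_add, Polynomial.eval_mul, Polynomial.eval_C, Polynomial.eval_X]
    exact le_rfl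
  · intro y z hy
    obtain ⟨i, hi⟩ := h.mem_wt.1 hy
    obtain ⟨-, h1⟩ := h.wt_false hi
    simp only [Polynomial.eval_pow, Polynomial.eval_X]
    exact h1.le
  · intro y y' z hy hy'
    obtain ⟨i, hi⟩ := h.mem_wt.1 hy
    obtain ⟨j, hj⟩ := h.mem_wt.1 hy'
    have h1 := (h.wt_false hi).1
    have h2 := (h.wt_false hj).1
    have h3 : i = j := by
      rw [h1] at h2
      rcases lt_trichotomy i j with h4 | h4 | h4
      · have := h.n'_le h4
        have := (h.good i).lt
        omega
      · exact h4
      · have := h.n'_le h4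
        have := (h.good j).lt
        omega
    subst h3
    exact (h.good i).uniq z y y' hi hj

/-- A computation in region `j` sees the whole oracle as it looks after region `j`. -/
theorem Chain.out_eq (h : Chain N r) (j : ℕ) (M : Cmd) (x : Str) (n : ℕ)
    (hn : x.length + n < (r j).n') :
    out (whole r) M [] [] x n = out (look (⋃ i, ⋃ (_ : i < j), (r i).part) (r j)) M [] [] x n := by
  refine out_congr le_rfl fun s hs => h.agree j s ?_
  have := length_queries hs
  rw [List.length_nil] at this
  omega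

end

theorem countable_poly : Countable (Polynomial ℕ) := by
  have h2 : Function.Injective
      (fun p : Polynomial ℕ => (List.range (p.natDegree + 1)).map p.coeff) := by
    intro p q h
    have hl : p.natDegree = q.natDegree := by
      have := congrArg List.length h
      simpa using this
    ext n
    by_cases hn : n ≤ p.natDegree
    · have := congrArg (fun l => l[n]?) h
      simp only [List.getElem?_map] at this
      rw [List.getElem?_range (by omega), List.getElem?_range (by omega)] at this
      simpa using this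
    · rw [Polynomial.coeff_eq_zero_of_natDegree_lt (by omega),
        Polynomial.coeff_eq_zero_of_natDegree_lt (by omega)]
  exact h2.countable

theorem main : ∃ B A K : Set Str,
    OneOneComplete B A ∧ OneOneComplete B K ∧ (∀ f, Karp B K A f → ¬ Honest f) ∧
    ∃ E : Set Str, InUP1 B E ∧ ¬ InP B E := by
  have : Nonempty Cmd := ⟨Cmd.skip⟩
  obtain ⟨N, hN⟩ := exists_surjective_nat Cmd
  have := countable_poly
  obtain ⟨tr, htr⟩ := exists_surjective_nat (Cmd × Polynomial ℕ × Polynomial ℕ)
  obtain ⟨r, h0, h1, h2, h3⟩ := exists_regions N tr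
  have h : Chain N r := ⟨h0, h1, h2⟩
  refine ⟨whole r, setA (whole r), join (setA (whole r)), h.complete_A hN, h.complete_join hN,
    ?_, setE (whole r), h.inUP_E, ?_⟩
  · rintro f ⟨⟨M, q, hf⟩, hred⟩ ⟨hh, hhon⟩
    obtain ⟨j, hj⟩ := htr (M, q, hh)
    have hd := h3 j
    rw [hj] at hd
    simp only at hd
    set n := (r (j + 1)).n with hn
    set x : Str := List.replicate (hh.eval n + 1) false with hx
    have hxl : x.length = hh.eval n + 1 := by simp [hx]
    have hxK : x ∈ join (setA (whole r)) :=
      Or.inl ⟨List.replicate (hh.eval n) false, by rw [hx, List.replicate_succ]⟩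
    obtain ⟨w, hw⟩ := (hred x).1 hxK
    have ho := hf x
    rw [hxl, h.out_eq (j + 1) M x _ (by rw [hxl]; exact hd.bd1)] at ho
    obtain ⟨h4, h5⟩ := hd.red _ ho
    obtain ⟨i, hi⟩ := h.mem_wt.1 hw
    obtain ⟨y, h6, h7, -⟩ := h.wt_true hi
    have h8 := h.key_length h6
    rw [← h7] at h8
    have h9 : (f x).length ≤ n := by
      rcases lt_trichotomy i (j + 1) with h10 | h10 | h10
      · have := h.n'_le h10
        omega
      · subst h10
        exact h5 y h6 h7.symm
      · have := h.n'_le h10
        omega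
    have h10 := hhon x
    have h11 : hh.eval (f x).length ≤ hh.eval n := eval_mono hh h9
    omega
  · rintro ⟨q, M, hM⟩
    obtain ⟨j, hj⟩ := htr (M, q, 0)
    have hd := h3 j
    rw [hj] at hd
    simp only at hd
    obtain ⟨x, hx1, hx2⟩ := hd.dec
    have ho := hM x
    rw [hx1, h.out_eq (j + 1) M x _ (by rw [hx1]; exact hd.bd2)] at ho
    apply hx2
    rw [ho]
    unfold chi
    congr 2
    refine decide_eq_decide.2 ?_
    constructor
    · rintro ⟨w, hw⟩
      obtain ⟨i, hi⟩ := h.mem_wt.1 hw
      have h4 := (h.wt_false hi).1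
      have h5 : i = j + 1 := by
        rw [hx1] at h4
        rcases lt_trichotomy i (j + 1) with h6 | h6 | h6
        · have := h.n'_le h6
          have := (h.good i).lt
          omega
        · exact h6
        · have := h.n'_le h6
          have := (h.good (j + 1)).lt
          omega
      subst h5
      exact ⟨w, hi⟩
    · rintro ⟨w, hw⟩
      exact ⟨w, h.mem_wt.2 ⟨_, hw⟩⟩

end Pool.IC
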