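import Pool.Agent.Work.MP_cb380d_h91.Adapt
import Pool.Agent.Work.OracleCmd_h91.Growth

open Classical

namespace Pool.IC

/-- Data of a region: instances of sizes `n, …, n' - 1`, their keys and the added witnesses. -/
structure Region where
  /-- first size -/
  n : ℕ
  /-- bound of the sizes -/
  n' : ℕ
  /-- keys -/
  key : Str → Str
  /-- witnesses -/
  W : Set Str

/-- The oracle strings of a region. -/
def Region.part (r : Region) : Set Str := kpart r.n r.n' r.key ∪ r.W

/-- The oracle as it looks after region `r`, if `O` is the oracle before it. -/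
def look (O : Set Str) (r : Region) : Set Str := O ∪ (r.part ∪ dflt r.n')

/-- The requirements for a region. -/
structure Good (N : ℕ → Cmd) (O : Set Str) (r : Region) : Prop where
  lt : r.n < r.n'
  even : ∃ L, r.n' = 2 * L
  keys : ∀ y, Reg sz r.n r.n' y → (∃ b, r.key y = rk b y) ∨
    ∃ u L, r.n = 2 * L ∧ u.length + 1 = L ∧ r.key y = sk u L
  inj : ∀ y y', Reg sz r.n r.n' y → Reg sz r.n r.n' y' → r.key y = r.key y' → y = y'
  form : ∀ s ∈ r.W, (∃ y w, Reg sz r.n r.n' y ∧ s = wt true w (r.key y) ∧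
      w.length = (r.key y).length ^ 2) ∨
    ∃ x w, x.length = r.n ∧ w.length = r.n ^ 2 ∧ s = wt false w x
  uniq : ∀ x w w', wt false w x ∈ r.W → wt false w' x ∈ r.W → w = w'
  acc : ∀ y, Reg sz r.n r.n' y → ((∃ w, wt true w (r.key y) ∈ r.W) ↔ Accp N (look O r) y)

/-- The region defeats the reduction `M` with time bound `q` and honesty bound `h`, and the
decision procedure `M` with time bound `q`. -/
structure Diag (O : Set Str) (r : Region) (M : Cmd) (q h : Polynomial ℕ) : Prop where
  bd1 : h.eval r.n + 1 + q.eval (h.eval r.n + 1) < r.n'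
  bd2 : r.n + q.eval r.n < r.n'
  red : ∀ a, out (look O r) M [] [] (List.replicate (h.eval r.n + 1) false)
      (q.eval (h.eval r.n + 1)) = some a →
    a.length < r.n' ∧ ∀ y, Reg sz r.n r.n' y → r.key y = a → a.length ≤ r.n
  dec : ∃ x, x.length = r.n ∧
    out (look O r) M [] [] x (q.eval r.n) ≠ some [decide (∃ w, wt false w x ∈ r.W)]

theorem out_length {B : Set Str} {M : Cmd} {p y z : Str} {n : ℕ} {o : Str}
    (h : out B M p y z n = some o) : o.length ≤ p.length + y.length + z.length + n := by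
  unfold out at h
  split_ifs at h with h0
  have := length_iterate (B := B) (c := ([M], init p y z)) (length_init p y z) n 3
  rw [Option.some.inj h] at this
  exact this

/-- The first region. -/
theorem exists_first (N : ℕ → Cmd) (O : Set Str) (n L : ℕ) (hn : n < 2 * L) :
    ∃ r : Region, Good N O r ∧ r.n = n ∧ r.n' = 2 * L := by
  obtain ⟨W, h1, h2, h3⟩ := core (m := sz) (Acc := Accp N)
    (O ∪ (kpart n (2 * L) (rk false) ∪ dflt (2 * L))) n (2 * L) (rk false) (certified N) ∅ ∅ 0
    (fun y _ _ => length_rk false y) (fun y y' _ _ h => (rk_inj h).2)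
    (fun y hy => by rw [length_rk]; exact hy.1) (by simp) (by simp)
  refine ⟨⟨n, 2 * L, rk false, W⟩, ⟨hn, ⟨L, rfl⟩, fun y _ => Or.inl ⟨false, rfl⟩,
    fun y y' _ _ h => (rk_inj h).2, fun s hs => Or.inl (h1 s hs), ?_, ?_⟩, rfl, rfl⟩
  · intro x w w' hw
    obtain ⟨y, w1, -, h4, -⟩ := h1 _ hw
    exact absurd (wt_inj h4).1 (by simp)
  · intro y hy
    have h4 : look O ⟨n, 2 * L, rk false, W⟩ =
        O ∪ (kpart n (2 * L) (rk false) ∪ dflt (2 * L)) ∪ W := by
      unfold look Region.part
      ext s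
      simp only [Set.mem_union]
      tauto
    rw [h4]
    exact h3 y hy

theorem exists_region (N : ℕ → Cmd) (O : Set Str) (M : Cmd) (q h : Polynomial ℕ) (L L' b : ℕ)
    (hL : 1 ≤ L) (hb : b = h.eval (2 * L) + 1 + q.eval (h.eval (2 * L) + 1) +
      (2 * L + q.eval (2 * L)))
    (hbig : b < 2 ^ (L - 1)) (hL' : b < L') :
    ∃ r : Region, Good N O r ∧ Diag O r M q h ∧ r.n = 2 * L ∧ r.n' = 2 * L' := by
  set n := 2 * L with hn
  set n' := 2 * L' with hn'
  set N0 := h.eval n + 1 with hN0
  set t1 := q.eval N0 with ht1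
  set t2 := q.eval n with ht2
  set z1 : Str := List.replicate N0 false with hz1
  set z2 : Str := List.replicate n false with hz2
  have hz1l : z1.length = N0 := by simp [hz1]
  have hz2l : z2.length = n := by simp [hz2]
  have hbn' : b < n' := by omega
  -- the questions of the two computations
  set qy : Set Str → ℕ → Option Str := fun B j =>
    if j < t1 then query ((step B)^[j] ([M], init [] [] z1))
    else query ((step B)^[j - t1] ([M], init [] [] z2)) with hqy
  have hloc : ∀ B B' j, (∀ i < j, ∀ s, qy B i = some s → (s ∈ B ↔ s ∈ B')) →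
      qy B j = qy B' j := by
    intro B B' j hj
    simp only [hqy]
    split_ifs with hjt
    · rw [iterate_congr (B := B) (B' := B')]
      intro i hi s hs
      refine hj i hi s ?_
      simp only [hqy]
      rw [if_pos (by omega)]
      exact hs
    · rw [iterate_congr (B := B) (B' := B')]
      intro i hi s hs
      refine hj (i + t1) (by omega) s ?_
      simp only [hqy]
      rw [if_neg (by omega), Nat.add_sub_cancel]
      exact hs
  obtain ⟨u, hu1, hu2⟩ := adaptive qy hloc O n b L hL (t1 + t2) (by omega)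
  set B1 := orc1 O n b L u with hB1
  -- the questions
  set F : Finset Str := (Finset.range (t1 + t2)).biUnion fun i => (qy B1 i).toFinset with hF
  have hFmem : ∀ s, s ∈ F ↔ ∃ i < t1 + t2, qy B1 i = some s := by
    intro s
    simp only [hF, Finset.mem_biUnion, Finset.mem_range, Option.mem_toFinset, Option.mem_def]
  have hFc : F.card ≤ t1 + t2 := by
    rw [hF]
    refine Finset.card_biUnion_le.trans ?_
    calc ∑ i ∈ Finset.range (t1 + t2), (qy B1 i).toFinset.card
        ≤ ∑ i ∈ Finset.range (t1 + t2), 1 := by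
          refine Finset.sum_le_sum fun i _ => ?_
          cases qy B1 i <;> simp
      _ = t1 + t2 := by simp
  have hF1 : ∀ s ∈ queries B1 M [] [] z1 t1, s ∈ F := by
    intro s hs
    unfold queries at hs
    obtain ⟨j, hj, hs⟩ := Finset.mem_biUnion.1 hs
    rw [Finset.mem_range] at hj
    rw [hFmem]
    refine ⟨j, by omega, ?_⟩
    simp only [hqy]
    rw [if_pos hj]
    simpa using hs
  have hF2 : ∀ s ∈ queries B1 M [] [] z2 t2, s ∈ F := by
    intro s hs
    unfold queries at hs
    obtain ⟨j, hj, hs⟩ := Finset.mem_biUnion.1 hs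
    rw [Finset.mem_range] at hj
    rw [hFmem]
    refine ⟨j + t1, by omega, ?_⟩
    simp only [hqy]
    rw [if_neg (by omega), Nat.add_sub_cancel]
    simpa using hs
  have hFl : ∀ s ∈ F, s.length ≤ b := by
    intro s hs
    obtain ⟨i, hi, hs⟩ := (hFmem s).1 hs
    by_cases hit : i < t1
    · have : s ∈ queries B1 M [] [] z1 t1 := by
        unfold queries
        refine Finset.mem_biUnion.2 ⟨i, Finset.mem_range.2 hit, ?_⟩
        simp only [hqy] at hs
        rw [if_pos hit] at hs
        simp [hs]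
      have := length_queries this
      rw [hz1l, List.length_nil] at this
      omega
    · have : s ∈ queries B1 M [] [] z2 t2 := by
        unfold queries
        refine Finset.mem_biUnion.2 ⟨i - t1, Finset.mem_range.2 (by omega), ?_⟩
        simp only [hqy] at hs
        rw [if_neg hit] at hs
        simp [hs]
      have := length_queries this
      rw [hz2l, List.length_nil] at this
      omega
  -- the special instances
  obtain ⟨dp, hdp⟩ : ∃ dp : Str → Str, ∀ v y, dp (pt v y) = y := by
    refine ⟨fun s => if h : ∃ y, ∃ v, s = pt v y then h.choose else [], fun v y => ?_⟩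
    have h : ∃ y', ∃ v', pt v y = pt v' y' := ⟨y, v, rfl⟩
    simp only [dif_pos h]
    obtain ⟨v', h1⟩ := h.choose_spec
    exact (pt_inj h1).2.symm
  set R : Finset Str := (F.filter fun s => ∃ v y, s = pt v y ∧ Reg sz n (b + 1) y).image dp with hR
  have hRmem : ∀ y, y ∈ R ↔ Reg sz n (b + 1) y ∧ ∃ i < t1 + t2, ∃ v, qy B1 i = some (pt v y) := by
    intro y
    rw [hR, Finset.mem_image]
    constructor
    · rintro ⟨s, hs, rfl⟩
      obtain ⟨hs1, v, y, rfl, hy⟩ := Finset.mem_filter.1 hs
      rw [hdp]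
      obtain ⟨i, hi, hs⟩ := (hFmem _).1 hs1
      exact ⟨hy, i, hi, v, hs⟩
    · rintro ⟨hy, i, hi, v, hs⟩
      exact ⟨pt v y, Finset.mem_filter.2 ⟨(hFmem _).2 ⟨i, hi, hs⟩, v, y, rfl, hy⟩, hdp v y⟩
  have hRc : R.card ≤ t1 + t2 := by
    rw [hR]
    exact Finset.card_image_le.trans ((Finset.card_filter_le _ _).trans hFc)
  -- output of the reduction, and keys
  set a : Str := (out B1 M [] [] z1 t1).getD [] with ha
  set key : Str → Str := fun y => if y ∈ R then sk (u y) L else rk (decide (rk false y = a)) y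
    with hkey
  have hkeyR : ∀ y ∈ R, key y = sk (u y) L := fun y hy => by simp [hkey, hy]
  have hkeyN : ∀ y, y ∉ R → key y = rk (decide (rk false y = a)) y := fun y hy => by
    simp [hkey, hy]
  have hinj : ∀ y y', Reg sz n n' y → Reg sz n n' y' → key y = key y' → y = y' := by
    intro y y' _ _ hyy
    by_cases hy : y ∈ R
    · by_cases hy' : y' ∈ R
      · rw [hkeyR y hy, hkeyR y' hy'] at hyy
        have h1 := hu1 y
        have h2 := hu1 y'
        exact hu2 y y' ((hRmem y).1 hy).2 ((hRmem y').1 hy').2 (sk_inj (by omega) hyy)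
      · rw [hkeyR y hy, hkeyN y' hy'] at hyy
        exact absurd hyy sk_ne_rk
    · by_cases hy' : y' ∈ R
      · rw [hkeyN y hy, hkeyR y' hy'] at hyy
        exact absurd hyy.symm sk_ne_rk
      · rw [hkeyN y hy, hkeyN y' hy'] at hyy
        exact (rk_inj hyy).2
  have hskl : ∀ y, (sk (u y) L).length = n := by
    intro y
    rw [length_sk]
    have := hu1 y
    omega
  have hnum : F.card + R.card * b ^ 3 < 2 ^ (n ^ 2) := by
    have h1 : t1 + t2 ≤ b := by omega
    have h2 : F.card + R.card * b ^ 3 ≤ b + b * b ^ 3 :=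
      Nat.add_le_add (hFc.trans h1) (Nat.mul_le_mul_right _ (hRc.trans h1))
    have h3 : b + b * b ^ 3 ≤ 2 * b ^ 4 := by
      rcases Nat.eq_zero_or_pos b with h | h
      · rw [h]; simp
      · have h4 : b ≤ b ^ 4 := Nat.le_self_pow (by norm_num) _
        have h5 : b * b ^ 3 = b ^ 4 := by ring
        omega
    have h6 : b ^ 4 < (2 ^ (L - 1)) ^ 4 := Nat.pow_lt_pow_left hbig (by norm_num)
    have h7 : 2 * (2 ^ (L - 1)) ^ 4 ≤ 2 ^ (n ^ 2) := by
      rw [← pow_mul, ← pow_succ']
      refine Nat.pow_le_pow_right (by norm_num) ?_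
      have h8 : n ^ 2 = 4 * L * L := by rw [hn]; ring
      have h9 : 4 * L * 1 ≤ 4 * L * L := Nat.mul_le_mul_left _ hL
      omega
    omega
  -- the toggle
  obtain ⟨w0, hw0, hw0F⟩ : ∃ w0 : Str, w0.length = n ^ 2 ∧ wt false w0 z2 ∉ F := by
    by_contra hcon
    push Not at hcon
    have h1 : (strs (n ^ 2)).image (fun w => wt false w z2) ⊆ F := by
      intro s hs
      obtain ⟨w, hw, rfl⟩ := Finset.mem_image.1 hs
      exact hcon w (mem_strs.1 hw)
    have h2 := Finset.card_le_card h1
    rw [Finset.card_image_of_injective _ (fun w w' h => (wt_inj h).2.1), card_strs] at h2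
    omega
  set Tg : Set Str := {s | s = wt false w0 z2 ∧ out B1 M [] [] z2 t2 = some [false]} with hTg
  obtain ⟨W, hW1, hW2, hW3⟩ := core (m := sz) (Acc := Accp N)
    (O ∪ (kpart n n' key ∪ dflt n') ∪ Tg) n n' key (certified N) R F b
    (fun y _ hy => by rw [hkeyN y hy, length_rk]) hinj
    (fun y hy => by
      by_cases hyR : y ∈ R
      · rw [hkeyR y hyR, hskl]
      · rw [hkeyN y hyR, length_rk]; exact hy.1)
    (fun y hy => by
      obtain ⟨⟨h1, h2⟩, -⟩ := (hRmem y).1 hy
      exact ⟨⟨h1, by omega⟩, by omega⟩) hnum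
  set r : Region := ⟨n, n', key, W ∪ Tg⟩ with hr
  have hlook : look O r = O ∪ (kpart n n' key ∪ dflt n') ∪ Tg ∪ W := by
    unfold look Region.part
    ext s
    simp only [hr, Set.mem_union]
    tauto
  have hWtrue : ∀ w c, wt false w c ∉ W := by
    intro w c hwc
    obtain ⟨y, w', -, h1, -⟩ := hW1 _ hwc
    exact absurd (wt_inj h1).1 (by simp)
  have hTgfalse : ∀ w c, wt true w c ∉ Tg := by
    rintro w c ⟨h1, -⟩
    exact absurd (wt_inj h1).1 (by simp)
  -- agreement
  have hag : ∀ s ∈ F, (s ∈ B1 ↔ s ∈ look O r) := by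
    intro s hs
    have hsl := hFl s hs
    rw [hlook]
    constructor
    · rintro (h1 | ⟨v, y, h1, h2, rfl⟩ | ⟨j, y, h1, rfl⟩)
      · exact Or.inl (Or.inl (Or.inl h1))
      · have hyR : y ∈ R := by
          rw [hRmem]
          obtain ⟨i, hi, hs⟩ := (hFmem _).1 hs
          exact ⟨h1, i, hi, v, hs⟩
        refine Or.inl (Or.inl (Or.inr (Or.inl ⟨v, y, ⟨h1.1, ?_⟩, ?_, rfl⟩)))
        · have := h1.2; omega
        · rw [hkeyR y hyR]; exact h2
      · by_cases hy : sz y < n'
        · have hyR : y ∉ R := by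
            intro hyR
            have := ((hRmem y).1 hyR).1.2
            omega
          refine Or.inl (Or.inl (Or.inr (Or.inl ⟨_, y, ⟨by omega, hy⟩, ?_, rfl⟩)))
          rw [hkeyN y hyR, suffix_rk]
          · simp
          · rw [length_pt] at hsl
            omega
        · exact Or.inl (Or.inl (Or.inr (Or.inr ⟨j, y, by omega, rfl⟩)))
    · rintro (((h1 | ⟨v, y, h1, h2, rfl⟩ | ⟨j, y, h1, rfl⟩) | ⟨rfl, -⟩) | h1)
      · exact Or.inl h1
      · by_cases hy : sz y < b + 1
        · have hyR : y ∈ R := by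
            rw [hRmem]
            obtain ⟨i, hi, hs⟩ := (hFmem _).1 hs
            exact ⟨⟨h1.1, hy⟩, i, hi, v, hs⟩
          rw [hkeyR y hyR] at h2
          exact Or.inr (Or.inl ⟨v, y, ⟨h1.1, hy⟩, h2, rfl⟩)
        · have hyR : y ∉ R := by
            intro hyR
            have := ((hRmem y).1 hyR).1.2
            omega
          rw [hkeyN y hyR, suffix_rk] at h2
          · exact Or.inr (Or.inr ⟨v.length, y, by omega, by rw [← h2]⟩)
          · rw [length_pt] at hsl
            omega
      · exact Or.inr (Or.inr ⟨j, y, by omega, rfl⟩)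
      · exact absurd hs hw0F
      · exact absurd hs (hW2 s h1)
  have hout1 : out (look O r) M [] [] z1 t1 = out B1 M [] [] z1 t1 :=
    (out_congr le_rfl fun s hs => hag s (hF1 s hs)).symm
  have hout2 : out (look O r) M [] [] z2 t2 = out B1 M [] [] z2 t2 :=
    (out_congr le_rfl fun s hs => hag s (hF2 s hs)).symm
  refine ⟨r, ⟨show n < n' by omega, ⟨L', rfl⟩, ?_, hinj, ?_, ?_, ?_⟩, ⟨?_, ?_, ?_, ?_⟩, rfl, rfl⟩
  · intro y _
    by_cases hyR : y ∈ R
    · exact Or.inr ⟨u y, L, rfl, hu1 y, hkeyR y hyR⟩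
    · exact Or.inl ⟨_, hkeyN y hyR⟩
  · rintro s (hs | ⟨rfl, -⟩)
    · exact Or.inl (hW1 s hs)
    · exact Or.inr ⟨z2, w0, hz2l, hw0, rfl⟩
  · rintro x w w' (hw | ⟨hw, -⟩) hw'
    · exact absurd hw (hWtrue _ _)
    · rcases hw' with hw' | ⟨hw', -⟩
      · exact absurd hw' (hWtrue _ _)
      · rw [(wt_inj hw).2.1, (wt_inj hw').2.1]
  · intro y hy
    rw [hlook, ← hW3 y hy]
    constructor
    · rintro ⟨w, hw | hw⟩
      · exact ⟨w, hw⟩
      · exact absurd hw (hTgfalse _ _)
    · rintro ⟨w, hw⟩
      exact ⟨w, Or.inl hw⟩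
  · show N0 + t1 < n'
    omega
  · show n + t2 < n'
    omega
  · intro a' ha'
    have ha'' : out (look O r) M [] [] z1 t1 = some a' := ha'
    have hal := out_length ha''
    rw [hz1l, List.length_nil] at hal
    rw [hout1] at ha''
    have haa : a = a' := by rw [ha, ha'']; rfl
    refine ⟨show a'.length < n' by omega, fun y hy hya => ?_⟩
    have hya' : key y = a' := hya
    by_cases hyR : y ∈ R
    · rw [hkeyR y hyR] at hya'
      rw [← hya', hskl]
    · rw [hkeyN y hyR] at hya'
      by_cases hra : rk false y = a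
      · have h2 : decide (rk false y = a) = true := by simpa using hra
        rw [h2, ← haa] at hya'
        have h1 := (rk_inj (hya'.trans hra.symm)).1
        simp at h1
      · have h2 : decide (rk false y = a) = false := by simpa using hra
        rw [h2, ← haa] at hya'
        exact absurd hya' hra
  · refine ⟨z2, hz2l, ?_⟩
    show out (look O r) M [] [] z2 t2 ≠ some [decide (∃ w, wt false w z2 ∈ W ∪ Tg)]
    rw [hout2]
    by_cases ho : out B1 M [] [] z2 t2 = some [false]
    · have h1 : ∃ w, wt false w z2 ∈ W ∪ Tg := ⟨w0, Or.inr ⟨rfl, ho⟩⟩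
      rw [ho, decide_eq_true h1]
      simp
    · have h1 : ¬ ∃ w, wt false w z2 ∈ W ∪ Tg := by
        rintro ⟨w, hw | ⟨-, hw⟩⟩
        · exact hWtrue _ _ hw
        · exact ho hw
      rw [decide_eq_false h1]
      exact ho

end Pool.IC
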